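import Pool.Agent.Lib.MP_7d449a_al.SO.Spec

/-!
# MP_7d449a_al, SO, module ABF
-/

set_option autoImplicit false

open scoped Pointwise

namespace Pool.Agent.Lib.MP7d449a.SO

universe u

theorem specABF : SpecABF.{u} := by
  intro G _ K A hA hcomm hfin htor
  have hKn : K.Normal := by
    refine ⟨fun k hk g => ?_⟩
    have h1 := K.mul_mem (hcomm g k) hk
    have e : g * k * g⁻¹ * k⁻¹ * k = g * k * g⁻¹ := by group
    rwa [e] at h1
  have hc : ∀ x y : G ⧸ K, x * y = y * x := by
    intro x y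
    obtain ⟨a, rfl⟩ := QuotientGroup.mk_surjective x
    obtain ⟨b, rfl⟩ := QuotientGroup.mk_surjective y
    refine (QuotientGroup.eq (s := K)).2 ?_
    have e : (a * b)⁻¹ * (b * a) = b⁻¹ * a⁻¹ * b⁻¹⁻¹ * a⁻¹⁻¹ := by group
    show (a * b)⁻¹ * (b * a) ∈ K
    rw [e]
    exact hcomm _ _
  let _ : CommGroup (G ⧸ K) := { (inferInstance : Group (G ⧸ K)) with mul_comm := hc }
  have hgen : Subgroup.closure ((fun a : G => (a : G ⧸ K)) '' A) = ⊤ := by
    have h1 := MonoidHom.map_closure (QuotientGroup.mk' K) A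
    rw [hA, ← MonoidHom.range_eq_map, MonoidHom.range_eq_top.2 (QuotientGroup.mk'_surjective K)] at h1
    exact h1.symm
  have hfg : Group.FG (G ⧸ K) := by
    rw [Group.fg_iff]
    exact ⟨_, hgen, hfin⟩
  have hord : Monoid.IsTorsion (G ⧸ K) := by
    have h2 : ∀ x ∈ Subgroup.closure ((fun a : G => (a : G ⧸ K)) '' A), IsOfFinOrder x := by
      intro x hx
      induction hx using Subgroup.closure_induction with
      | mem x hx =>
        obtain ⟨a, ha, rfl⟩ := hx
        obtain ⟨m, hm, hmK⟩ := htor a ha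
        refine isOfFinOrder_iff_pow_eq_one.2 ⟨m, hm, ?_⟩
        exact (QuotientGroup.eq_one_iff (a ^ m)).2 hmK
      | one => exact IsOfFinOrder.one
      | mul x y _ _ hx hy => exact (Commute.isOfFinOrder_mul (hc x y) hx hy)
      | inv x _ hx => exact hx.inv
    intro x
    exact h2 x (hgen ▸ Subgroup.mem_top x)
  have hf : Finite (G ⧸ K) := CommGroup.finite_of_fg_torsion (G ⧸ K) hord
  exact Subgroup.index_ne_zero_of_finite

end Pool.Agent.Lib.MP7d449a.SO
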