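import Pool.Agent.Lib.MP_7d449a_al.SO.Spec

/-!
# Module CNJ of `SO/Spec.lean` (MP_7d449a_al): the conjugates of an element of the abelian normal subgroup
-/

set_option autoImplicit false

open scoped Pointwise

namespace Pool.Agent.Lib.MP7d449a.SO

universe u

namespace CNJM

theorem fin_factor {α β γ : Type*} (A : Set α) (f : α → β) (k : α → γ) (hk : (k '' A).Finite)
    (h : ∀ a ∈ A, ∀ a' ∈ A, k a = k a' → f a = f a') : (f '' A).Finite := by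
  obtain ⟨T, hTA, hT⟩ := Set.exists_subset_bijOn A k
  have hTf : T.Finite := hT.finite_iff_finite.2 hk
  refine (hTf.image f).subset ?_
  rintro _ ⟨a, ha, rfl⟩
  obtain ⟨t, ht, hta⟩ := hT.surjOn ⟨a, ha, rfl⟩
  exact ⟨t, ht, h t (hTA ht) a ha hta⟩

section

variable {Γ X : Type u} [Group Γ] [MulAction Γ X] (B : Subgroup Γ) [hB : B.Normal]

/-- An element of `B` which fixes `x` fixes the orbit of `x`. -/
theorem fix_orbit (hc : ∀ a ∈ B, ∀ b ∈ B, a * b = b * a) (x : X) (hx : ∀ g : Γ, ∃ b ∈ B, g • x = b • x)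
    (d : Γ) (hd : d ∈ B) (hdx : d • x = x) (g : Γ) : d • (g • x) = g • x := by
  obtain ⟨c, hcB, hgc⟩ := hx g
  rw [hgc, ← mul_smul, hc d hd c hcB, mul_smul, hdx]

theorem conj_fix (hc : ∀ a ∈ B, ∀ b ∈ B, a * b = b * a) (x : X) (hx : ∀ g : Γ, ∃ b ∈ B, g • x = b • x)
    (d : Γ) (hd : d ∈ B) (hdx : d • x = x) (g : Γ) : (g * d * g⁻¹) • x = x := by
  rw [mul_smul, mul_smul, fix_orbit B hc x hx d hd hdx g⁻¹, ← mul_smul, mul_inv_cancel, one_smul]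

/-- Equality of `u • x` and `v • x` is preserved by conjugation. -/
theorem conj_eq (hc : ∀ a ∈ B, ∀ b ∈ B, a * b = b * a) (x : X) (hx : ∀ g : Γ, ∃ b ∈ B, g • x = b • x)
    (p q : Γ) (hp : p ∈ B) (hq : q ∈ B) (hpq : p • x = q • x) (g : Γ) :
    (g * p * g⁻¹) • x = (g * q * g⁻¹) • x := by
  have h1 : (q⁻¹ * p) • x = x := by
    rw [mul_smul, hpq, ← mul_smul, inv_mul_cancel, one_smul]
  have h2 := conj_fix B hc x hx (q⁻¹ * p) (B.mul_mem (B.inv_mem hq) hp) h1 g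
  have h3 : g * p * g⁻¹ = (g * q * g⁻¹) * (g * (q⁻¹ * p) * g⁻¹) := by group
  rw [h3, mul_smul, h2]

/-- The power argument. -/
theorem per_aux (hc : ∀ a ∈ B, ∀ b ∈ B, a * b = b * a) (hper : Per Γ X) (x : X)
    (hx : ∀ g : Γ, ∃ b ∈ B, g • x = b • x) (g b : Γ) (hb : b ∈ B) :
    ∃ m : ℕ, 0 < m ∧ (g ^ m * b * (g ^ m)⁻¹) • x = b • x := by
  obtain ⟨c, hcB, hgc⟩ := hx g
  set h : Γ := c⁻¹ * g with hh
  have hhx : h • x = x := by
    rw [hh, mul_smul, hgc, ← mul_smul, inv_mul_cancel, one_smul]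
  have hg : g = c * h := by rw [hh]; group
  have hpow : ∀ m : ℕ, h ^ m • x = x := by
    intro m
    induction m with
    | zero => simp
    | succ m ih => rw [pow_succ, mul_smul, hhx, ih]
  have hconj : ∀ m : ℕ, g ^ m * b * (g ^ m)⁻¹ = h ^ m * b * (h ^ m)⁻¹ := by
    intro m
    induction m with
    | zero => simp
    | succ m ih =>
      have e1 : g ^ (m + 1) * b * (g ^ (m + 1))⁻¹ = g * (g ^ m * b * (g ^ m)⁻¹) * g⁻¹ := by
        rw [pow_succ']; group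
      have e2 : h ^ (m + 1) * b * (h ^ (m + 1))⁻¹ = h * (h ^ m * b * (h ^ m)⁻¹) * h⁻¹ := by
        rw [pow_succ']; group
      rw [e1, e2, ih]
      have hw : h * (h ^ m * b * (h ^ m)⁻¹) * h⁻¹ ∈ B := hB.conj_mem _ (hB.conj_mem b hb (h ^ m)) h
      have e3 : g * (h ^ m * b * (h ^ m)⁻¹) * g⁻¹ = c * (h * (h ^ m * b * (h ^ m)⁻¹) * h⁻¹) * c⁻¹ := by
        rw [hg]; group
      rw [e3, hc c hcB _ hw]
      group
  have hN : ∀ m : ℕ, (b * h) ^ m * (h ^ m)⁻¹ ∈ B := by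
    intro m
    induction m with
    | zero => simp
    | succ m ih =>
      have e : (b * h) ^ (m + 1) * (h ^ (m + 1))⁻¹
          = ((b * h) ^ m * (h ^ m)⁻¹) * (h ^ m * b * (h ^ m)⁻¹) := by
        rw [pow_succ, pow_succ]; group
      rw [e]
      exact B.mul_mem ih (hB.conj_mem b hb (h ^ m))
  obtain ⟨m, hm, hmx⟩ := hper (b * h) x
  refine ⟨m, hm, ?_⟩
  rw [hconj m]
  have hinv : (h ^ m)⁻¹ • x = x := by
    rw [inv_smul_eq_iff, hpow m]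
  have hNx : ((b * h) ^ m * (h ^ m)⁻¹) • x = x := by
    rw [mul_smul, hinv, hmx]
  have hid : ((b * h) ^ m * (h ^ m)⁻¹) * (h ^ m * b * (h ^ m)⁻¹)
      = b * (h * ((b * h) ^ m * (h ^ m)⁻¹) * h⁻¹) := by
    have e1 : b * (h * ((b * h) ^ m * (h ^ m)⁻¹) * h⁻¹) = (b * h) ^ (m + 1) * ((h ^ m)⁻¹ * h⁻¹) := by
      rw [pow_succ']; group
    have e2 : (h ^ m)⁻¹ * h⁻¹ = h⁻¹ * (h ^ m)⁻¹ := by
      rw [← mul_inv_rev, ← mul_inv_rev, ← pow_succ', ← pow_succ]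
    rw [e1, e2, pow_succ]
    group
  have hfix := conj_fix B hc x hx _ (hN m) hNx h
  have h5 : (((b * h) ^ m * (h ^ m)⁻¹) * (h ^ m * b * (h ^ m)⁻¹)) • x = b • x := by
    rw [hid, mul_smul, hfix]
  have h6 : (h ^ m * b * (h ^ m)⁻¹) • x = ((b * h) ^ m * (h ^ m)⁻¹)⁻¹ • (b • x) := by
    rw [eq_inv_smul_iff, ← mul_smul]
    exact h5
  rw [h6, inv_smul_eq_iff]
  exact (fix_orbit B hc x hx _ (hN m) hNx b).symm

end

end CNJM

open CNJM in
theorem specCNJ : SpecCNJ.{u} := by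
  intro Γ X _ _ B hB hc hQ hgen hper x hx b hb
  classical
  set φ : Γ → X := fun g => (g * b * g⁻¹) • x with hφ
  have hbB : ∀ g : Γ, g * b * g⁻¹ ∈ B := fun g => hB.conj_mem b hb g
  -- invariance
  have hinv : ∀ g₁ g₂ : Γ, φ g₁ = φ g₂ → ∀ h : Γ, φ (h * g₁) = φ (h * g₂) := by
    intro g₁ g₂ h12 h
    have := conj_eq B hc x hx (g₁ * b * g₁⁻¹) (g₂ * b * g₂⁻¹) (hbB g₁) (hbB g₂) h12 h
    simp only [hφ]
    have e1 : h * g₁ * b * (h * g₁)⁻¹ = h * (g₁ * b * g₁⁻¹) * h⁻¹ := by group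
    have e2 : h * g₂ * b * (h * g₂)⁻¹ = h * (g₂ * b * g₂⁻¹) * h⁻¹ := by group
    rw [e1, e2]
    exact this
  let N : Subgroup Γ :=
    { carrier := {g | φ g = φ 1}
      one_mem' := rfl
      mul_mem' := by
        intro g h hg hh
        have h1 := hinv h 1 hh g
        rw [mul_one] at h1
        exact h1.trans hg
      inv_mem' := by
        intro g hg
        have h1 := hinv g 1 hg g⁻¹
        rw [inv_mul_cancel, mul_one] at h1
        exact h1.symm }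
  have hBN : B ≤ N := by
    intro c hcB
    change φ c = φ 1
    simp only [hφ]
    rw [hc c hcB b hb]
    group
  have hN : ∀ g₁ g₂ : Γ, g₁⁻¹ * g₂ ∈ N ↔ φ g₁ = φ g₂ := by
    intro g₁ g₂
    constructor
    · intro h
      have h1 := hinv _ _ (show φ (g₁⁻¹ * g₂) = φ 1 from h) g₁
      rw [mul_one, mul_inv_cancel_left] at h1
      exact h1.symm
    · intro h
      have h1 := hinv _ _ h g₁⁻¹
      rw [inv_mul_cancel] at h1
      exact h1.symm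
  let K : Subgroup (Γ ⧸ B) := N.map (QuotientGroup.mk' B)
  let cl : Γ → (Γ ⧸ B) ⧸ K := fun g => ((g : Γ ⧸ B) : (Γ ⧸ B) ⧸ K)
  have hcl : ∀ g₁ g₂ : Γ, cl g₁ = cl g₂ ↔ φ g₁ = φ g₂ := by
    intro g₁ g₂
    rw [← hN]
    change (((g₁ : Γ ⧸ B) : (Γ ⧸ B) ⧸ K) = ((g₂ : Γ ⧸ B) : (Γ ⧸ B) ⧸ K)) ↔ _
    rw [QuotientGroup.eq]
    constructor
    · intro h
      obtain ⟨n, hn, hne⟩ := Subgroup.mem_map.1 h
      have h1 : ((n : Γ) : Γ ⧸ B) = ((g₁⁻¹ * g₂ : Γ) : Γ ⧸ B) := hne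
      rw [QuotientGroup.eq] at h1
      have h2 := N.mul_mem hn (hBN h1)
      rwa [mul_inv_cancel_left] at h2
    · intro h
      exact Subgroup.mem_map.2 ⟨_, h, rfl⟩
  have hsurj : ∀ y : (Γ ⧸ B) ⧸ K, ∃ g : Γ, cl g = y := by
    intro y
    obtain ⟨q, rfl⟩ := QuotientGroup.mk_surjective y
    obtain ⟨g, rfl⟩ := QuotientGroup.mk_surjective q
    exact ⟨g, rfl⟩
  have hsm : ∀ s g : Γ, (s : Γ ⧸ B) • cl g = cl (s * g) := fun s g => rfl
  have hbd : ∀ A : Set Γ, Bd X A → Bd X A⁻¹ → Bd ((Γ ⧸ B) ⧸ K) ((fun g : Γ => (g : Γ ⧸ B)) '' A) := by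
    intro A hA hA' y
    obtain ⟨g, rfl⟩ := hsurj y
    have e : (fun s : Γ ⧸ B => s • cl g) '' ((fun g : Γ => (g : Γ ⧸ B)) '' A)
        = (fun s : Γ => cl (s * g)) '' A := by
      rw [Set.image_image]
      rfl
    rw [e]
    refine fin_factor A _ (fun s => φ (s * g)) ?_ (fun a _ a' _ h => (hcl _ _).2 h)
    have hfin : (⋃ z ∈ (fun s : Γ => s • x) '' A⁻¹,
        (fun s : Γ => s • ((g * b * g⁻¹) • z)) '' A).Finite :=
      (hA' x).biUnion (fun z _ => hA _)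
    refine hfin.subset ?_
    rintro _ ⟨s, hs, rfl⟩
    refine Set.mem_biUnion (x := s⁻¹ • x) ⟨s⁻¹, Set.inv_mem_inv.2 hs, rfl⟩ ⟨s, hs, ?_⟩
    have e1 : s * g * b * (s * g)⁻¹ = s * ((g * b * g⁻¹) * s⁻¹) := by group
    change s • ((g * b * g⁻¹) • (s⁻¹ • x)) = (s * g * b * (s * g)⁻¹) • x
    rw [e1, mul_smul s, mul_smul (g * b * g⁻¹)]
  have hCG : CGen (Γ ⧸ B) ((Γ ⧸ B) ⧸ K) := by
    obtain ⟨S, hS, hS1, hS2⟩ := hgen
    refine ⟨(fun g : Γ => (g : Γ ⧸ B)) '' S, ?_, hbd S hS1 hS2, ?_⟩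
    · have h1 : (Subgroup.closure S).map (QuotientGroup.mk' B) = Subgroup.closure ((QuotientGroup.mk' B) '' S) :=
        MonoidHom.map_closure _ _
      rw [hS] at h1
      have h2 : (⊤ : Subgroup Γ).map (QuotientGroup.mk' B) = ⊤ :=
        Subgroup.map_top_of_surjective _ (QuotientGroup.mk'_surjective B)
      rw [h2] at h1
      exact h1.symm
    · have h3 := hbd S⁻¹ hS2 (by rwa [inv_inv])
      intro y
      refine (h3 y).subset ?_
      rintro _ ⟨t, ht, rfl⟩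
      obtain ⟨s, hs, hst⟩ := ht
      refine ⟨t, ⟨s⁻¹, Set.inv_mem_inv.2 hs, ?_⟩, rfl⟩
      have hst' : ((s : Γ) : Γ ⧸ B) = t⁻¹ := hst
      change ((s⁻¹ : Γ) : Γ ⧸ B) = t
      rw [QuotientGroup.mk_inv, hst', inv_inv]
  have hPer : Per (Γ ⧸ B) ((Γ ⧸ B) ⧸ K) := by
    intro q y
    obtain ⟨g, rfl⟩ := QuotientGroup.mk_surjective q
    obtain ⟨v, rfl⟩ := hsurj y
    obtain ⟨m, hm, hmx⟩ := per_aux B hc hper x hx g (v * b * v⁻¹) (hbB v)
    refine ⟨m, hm, ?_⟩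
    rw [← QuotientGroup.mk_pow, hsm, hcl]
    simp only [hφ]
    have e1 : g ^ m * v * b * (g ^ m * v)⁻¹ = g ^ m * (v * b * v⁻¹) * (g ^ m)⁻¹ := by group
    rw [e1]
    exact hmx
  have horb := hQ ((Γ ⧸ B) ⧸ K) hCG hPer (cl 1)
  have h7 : (cl '' (Set.univ : Set Γ)).Finite := by
    refine horb.subset ?_
    rintro _ ⟨g, _, rfl⟩
    refine ⟨(g : Γ ⧸ B), ?_⟩
    change (g : Γ ⧸ B) • cl 1 = cl g
    rw [hsm, mul_one]
  have h8 := fin_factor (Set.univ : Set Γ) φ cl h7 (fun a _ a' _ h => (hcl _ _).1 h)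
  rwa [Set.image_univ] at h8

end Pool.Agent.Lib.MP7d449a.SO
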