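import Pool.Agent.Lib.MP_7d449a_al.SO.Spec

/-!
# Module DEC: decomposition of the generators.
-/

set_option autoImplicit false

open scoped Pointwise

namespace Pool.Agent.Lib.MP7d449a.SO

universe u

theorem specDEC : SpecDEC.{u} := by
  intro Γ X _ _ N _ a hC
  obtain ⟨M, hM⟩ : ∃ M : Subgroup Γ, M = MulAction.stabilizer Γ a ⊔ N := ⟨_, rfl⟩
  rw [← hM] at hC ⊢
  obtain ⟨S, hS, hB, hB'⟩ := hC
  obtain ⟨S', hS'⟩ : ∃ S' : Set Γ, S' = M.subtype '' S := ⟨_, rfl⟩
  have clS : Subgroup.closure S' = M := by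
    rw [hS', ← MonoidHom.map_closure, hS, ← MonoidHom.range_eq_map, Subgroup.range_subtype]
  have fin1 : ∀ x : X, ((fun s : Γ => s • x) '' S').Finite := by
    intro x
    refine (hB x).subset ?_
    rintro _ ⟨s, hs, rfl⟩
    rw [hS'] at hs
    obtain ⟨m, hm, rfl⟩ := hs
    exact ⟨m, hm, rfl⟩
  have fin2 : ∀ x : X, ((fun s : Γ => s⁻¹ • x) '' S').Finite := by
    intro x
    refine (hB' x).subset ?_
    rintro _ ⟨s, hs, rfl⟩
    rw [hS'] at hs
    obtain ⟨m, hm, rfl⟩ := hs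
    exact ⟨m⁻¹, by simpa using hm, rfl⟩
  obtain ⟨R, hRS, hbij⟩ := Set.exists_subset_bijOn S' (fun s : Γ => s • a)
  have hRf : R.Finite := hbij.finite_iff_finite.mpr (fin1 a)
  have hR : ∀ s ∈ S', ∃ r ∈ R, s • a = r • a := by
    intro s hs
    obtain ⟨r, hr, hrs⟩ := hbij.surjOn ⟨s, hs, rfl⟩
    exact ⟨r, hr, hrs.symm⟩
  have dec : ∀ r ∈ R, ∃ d h : Γ, d ∈ N ∧ h • a = a ∧ r = d * h := by
    intro r hr
    have h1 : r ∈ M := by
      rw [← clS]
      exact Subgroup.subset_closure (hRS hr)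
    rw [hM] at h1
    have h2 : r ∈ ((MulAction.stabilizer Γ a : Set Γ) * (N : Set Γ)) := by
      rw [← Subgroup.mul_normal]
      exact h1
    obtain ⟨h, hh, n, hn, hr'⟩ := Set.mem_mul.mp h2
    refine ⟨h * n * h⁻¹, h, Subgroup.Normal.conj_mem inferInstance n hn h, hh, ?_⟩
    rw [← hr']
    group
  choose! d h hd hh hr using dec
  refine ⟨h '' R ∪ {x | ∃ r ∈ R, ∃ s ∈ S', s • a = r • a ∧ x = r⁻¹ * s}, d '' R,
    ?_, ?_, ?_, hRf.image d, ?_, ?_⟩
  · intro x
    refine (((hRf.image h).image (fun s : Γ => s • x)).union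
      (hRf.biUnion (t := fun r => (fun y : X => r⁻¹ • y) '' ((fun s : Γ => s • x) '' S'))
        (fun r _ => (fin1 x).image _))).subset ?_
    rintro _ ⟨s, hs | ⟨r, hr1, s', hs', _, rfl⟩, rfl⟩
    · exact Or.inl ⟨s, hs, rfl⟩
    · refine Or.inr ?_
      rw [Set.mem_iUnion₂]
      exact ⟨r, hr1, s' • x, ⟨s', hs', rfl⟩, (mul_smul _ _ _).symm⟩
  · intro x
    refine (((hRf.image h).image (fun s : Γ => s⁻¹ • x)).union
      (hRf.biUnion (t := fun r => (fun s : Γ => s⁻¹ • (r • x)) '' S')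
        (fun r _ => fin2 (r • x)))).subset ?_
    rintro _ ⟨s, hs, rfl⟩
    rw [Set.mem_inv] at hs
    rcases hs with hs | ⟨r, hr1, s', hs', _, he⟩
    · refine Or.inl ⟨s⁻¹, hs, ?_⟩
      simp
    · refine Or.inr ?_
      rw [Set.mem_iUnion₂]
      refine ⟨r, hr1, s', hs', ?_⟩
      have h1 : s = s'⁻¹ * r := by
        rw [← inv_inv s, he]
        group
      show s'⁻¹ • r • x = s • x
      rw [h1, mul_smul]
  · rintro s (⟨r, hr1, rfl⟩ | ⟨r, hr1, s', hs', he, rfl⟩)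
    · exact hh r hr1
    · rw [mul_smul, he, inv_smul_smul]
  · rintro _ ⟨r, hr1, rfl⟩
    exact hd r hr1
  · apply le_antisymm
    · rw [Subgroup.closure_le]
      rintro x ((⟨r, hr1, rfl⟩ | ⟨r, hr1, s', hs', he, rfl⟩) | ⟨r, hr1, rfl⟩)
      · rw [hM]
        exact Subgroup.mem_sup_left (hh r hr1)
      · have h1 : r ∈ M := by
          rw [← clS]
          exact Subgroup.subset_closure (hRS hr1)
        have h2 : s' ∈ M := by
          rw [← clS]
          exact Subgroup.subset_closure hs'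
        exact M.mul_mem (M.inv_mem h1) h2
      · rw [hM]
        exact Subgroup.mem_sup_right (hd r hr1)
    · conv_lhs => rw [← clS]
      rw [Subgroup.closure_le]
      intro s hs
      obtain ⟨r, hr1, hrs⟩ := hR s hs
      have e : s = d r * h r * (r⁻¹ * s) := by
        rw [← hr r hr1]
        group
      rw [e]
      refine Subgroup.mul_mem _ (Subgroup.mul_mem _ ?_ ?_) ?_
      · exact Subgroup.subset_closure (Or.inr ⟨r, hr1, rfl⟩)
      · exact Subgroup.subset_closure (Or.inl (Or.inl ⟨r, hr1, rfl⟩))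
      · exact Subgroup.subset_closure (Or.inl (Or.inr ⟨r, hr1, s, hs, hrs, rfl⟩))

end Pool.Agent.Lib.MP7d449a.SO
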