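import Pool.Agent.Lib.MP_7d449a_al.SO.Spec2

/-!
# MP_7d449a_al, SO, module FN8: products of compact sets, powers and soluble subgroups
-/

set_option autoImplicit false

open Filter Topology
open scoped Pointwise

namespace Pool.Agent.Lib.MP7d449a.SO

universe u

namespace FN8M

variable {G : Type u} [Group G] [TopologicalSpace G] [IsTopologicalGroup G]

/-- `X` acts equicontinuously by conjugation, modulo `N`. -/
def EqN (N : Subgroup G) (X : Set G) : Prop :=
  ∀ O : Subgroup G, IsOpen (O : Set G) → N ≤ O → ∃ O' : Subgroup G, IsOpen (O' : Set G) ∧ N ≤ O' ∧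
    ∀ p ∈ X, ∀ x ∈ O', p * x * p⁻¹ ∈ O

theorem eq_mul {N : Subgroup G} {X Y : Set G} (hX : EqN N X) (hY : EqN N Y) : EqN N (X * Y) := by
  intro O hO hNO
  obtain ⟨O₁, h1, h2, h3⟩ := hX O hO hNO
  obtain ⟨O₂, g1, g2, g3⟩ := hY O₁ h1 h2
  refine ⟨O₂, g1, g2, ?_⟩
  rintro p ⟨y, hy, q, hq, rfl⟩ x hx
  have h4 := h3 y hy _ (g3 q hq x hx)
  have e : y * q * x * (y * q)⁻¹ = y * (q * x * q⁻¹) * y⁻¹ := by group
  show y * q * x * (y * q)⁻¹ ∈ O
  rw [e]
  exact h4

theorem eq_prod {N : Subgroup G} : ∀ l : List (Set G), (∀ X ∈ l, EqN N X) →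
    EqN N (l.prod : Set G) := by
  intro l
  induction l with
  | nil =>
    intro _ O hO hNO
    refine ⟨O, hO, hNO, ?_⟩
    intro p hp x hx
    rw [List.prod_nil, Set.mem_one] at hp
    subst hp
    simpa using hx
  | cons X l ih =>
    intro h
    rw [List.prod_cons]
    exact eq_mul (h X (List.mem_cons_self ..)) (ih fun Y hY => h Y (List.mem_cons_of_mem _ hY))

/-- An open subgroup whose normaliser has finite index has an open normal core. -/
theorem core_of_finite {L M : Subgroup G} (hL : IsOpen (L : Set G)) (hM : M.FiniteIndex)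
    (hML : ∀ m ∈ M, ∀ x ∈ L, m * x * m⁻¹ ∈ L) : IsOpen (L.normalCore : Set G) := by
  have : Finite (G ⧸ M) := M.finite_quotient_of_finiteIndex
  have hK : IsOpen ((⋂ q : G ⧸ M, (fun x : G => q.out⁻¹ * x * q.out) ⁻¹' (L : Set G))) :=
    isOpen_iInter_of_finite fun q => hL.preimage (by fun_prop)
  have h1 : (1 : G) ∈ (⋂ q : G ⧸ M, (fun x : G => q.out⁻¹ * x * q.out) ⁻¹' (L : Set G)) := by
    refine Set.mem_iInter.2 fun q => ?_
    show q.out⁻¹ * 1 * q.out ∈ L
    simp [L.one_mem]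
  have hsub : (⋂ q : G ⧸ M, (fun x : G => q.out⁻¹ * x * q.out) ⁻¹' (L : Set G)) ⊆
      (L.normalCore : Set G) := by
    intro x hx b
    have h2 := Set.mem_iInter.1 hx (QuotientGroup.mk (b⁻¹))
    have h2 : (QuotientGroup.mk (s := M) (b⁻¹)).out⁻¹ * x * (QuotientGroup.mk (s := M) (b⁻¹)).out
        ∈ L := h2
    obtain ⟨m, hm⟩ := QuotientGroup.mk_out_eq_mul M b⁻¹
    rw [hm] at h2
    have h3 := hML m m.2 _ h2
    have e : (m : G) * ((b⁻¹ * (m : G))⁻¹ * x * (b⁻¹ * (m : G))) * (m : G)⁻¹ = b * x * b⁻¹ := by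
      group
    rw [e] at h3
    exact h3
  exact L.normalCore.isOpen_of_mem_nhds (g := 1)
    (Filter.mem_of_superset (hK.mem_nhds h1) hsub)

/-- The core statement with a subgroup `Γ` in the closure of an equicontinuous set. -/
theorem core4 {N Γ : Subgroup G} {P : Set G} (hP : EqN N P) (hΓ : (Γ : Set G) ⊆ closure P)
    (hfi : ∀ O : Subgroup G, IsOpen (O : Set G) → Γ ≤ O → O.FiniteIndex)
    (O : Subgroup G) (hO : IsOpen (O : Set G)) (hNO : N ≤ O) :
    IsOpen (O.normalCore : Set G) := by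
  obtain ⟨O', h1, h2, h3⟩ := hP O hO hNO
  -- conjugation by `Γ`
  have key : ∀ h ∈ Γ, ∀ x ∈ O', h * x * h⁻¹ ∈ O := by
    intro b hb x hx
    have ho : IsOpen ((fun y => y * b⁻¹) ⁻¹' (O : Set G)) := hO.preimage (by fun_prop)
    obtain ⟨y, hy, hyd⟩ := mem_closure_iff.1 (hΓ hb) _ ho (by
      show b * b⁻¹ ∈ O
      rw [mul_inv_cancel]
      exact O.one_mem)
    have hy : y * b⁻¹ ∈ O := hy
    have h5 := h3 y hyd _ hx
    have e : b * x * b⁻¹ = (y * b⁻¹)⁻¹ * (y * x * y⁻¹) * (y * b⁻¹) := by group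
    rw [e]
    exact O.mul_mem (O.mul_mem (O.inv_mem hy) h5) hy
  -- the intersection of the conjugates of `O` under `Γ`
  let L : Subgroup G := ⨅ h : Γ, O.comap (MulAut.conj (h : G)).toMonoidHom
  have hLmem : ∀ x : G, x ∈ L ↔ ∀ h : Γ, (h : G) * x * (h : G)⁻¹ ∈ O := by
    intro x
    exact Subgroup.mem_iInf
  have hLo : IsOpen (L : Set G) := by
    refine Subgroup.isOpen_mono (H₁ := O') ?_ h1
    intro x hx
    exact (hLmem x).2 fun h => key h h.2 x hx
  have hLO : L ≤ O := by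
    intro x hx
    have := (hLmem x).1 hx 1
    simpa using this
  have hLΓ : ∀ g ∈ Γ, ∀ x ∈ L, g * x * g⁻¹ ∈ L := by
    intro g hg x hx
    refine (hLmem _).2 fun h => ?_
    have h4 := (hLmem x).1 hx (h * ⟨g, hg⟩)
    have e : (h : G) * (g * x * g⁻¹) * (h : G)⁻¹ =
        ((h * ⟨g, hg⟩ : Γ) : G) * x * ((h * ⟨g, hg⟩ : Γ) : G)⁻¹ := by
      show (h : G) * (g * x * g⁻¹) * (h : G)⁻¹ = ((h : G) * g) * x * ((h : G) * g)⁻¹
      group
    rw [e]
    exact h4
  -- its normaliser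
  have hΓM : Γ ≤ Subgroup.normalizer (L : Set G) := by
    intro g hg
    rw [Subgroup.mem_normalizer_iff]
    intro x
    constructor
    · exact hLΓ g hg x
    · intro hx
      have := hLΓ g⁻¹ (Γ.inv_mem hg) _ hx
      have e : g⁻¹ * (g * x * g⁻¹) * g⁻¹⁻¹ = x := by group
      rw [e] at this
      exact this
  have hMo : IsOpen ((Subgroup.normalizer (L : Set G) : Subgroup G) : Set G) :=
    Subgroup.isOpen_mono Subgroup.le_normalizer hLo
  have hM := hfi _ hMo hΓM
  have hLc : IsOpen (L.normalCore : Set G) :=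
    core_of_finite hLo hM fun m hm x hx => (Subgroup.mem_normalizer_iff.1 hm x).1 hx
  refine Subgroup.isOpen_mono (H₁ := L.normalCore) ?_ hLc
  exact Subgroup.normalCore_mono hLO

variable [LocallyCompactSpace G] [TotallyDisconnectedSpace G] [T2Space G]

/-- The pieces are equicontinuous. -/
theorem piece (hTOP : SpecTOP.{u}) {N : Subgroup G} (hN : N.Normal) {X : Set G}
    (hX : IsCompact X ∨ (∃ C : Set G, IsCompact C ∧ X = GP.Pw C) ∨
      ∃ H : Subgroup G, X = (H : Set G) ∧ VS H)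
    (hcon : IsCompact X ∨ ∀ x ∈ X, con x ⊆ N) : EqN N X := by
  intro O hO hNO
  rcases hcon with hc | hc
  · obtain ⟨O₁, h1, h2, -, h4⟩ := GP.BM2M.comp_step hN hc hO hNO
    exact ⟨O₁, h1, h2, h4⟩
  · rcases hX with h | ⟨C, hC, rfl⟩ | ⟨H, rfl, hH⟩
    · obtain ⟨O₁, h1, h2, -, h4⟩ := GP.BM2M.comp_step hN h hO hNO
      exact ⟨O₁, h1, h2, h4⟩
    · have : N.Normal := hN
      have hc' : ∀ c ∈ C, con c ⊆ N ∧ con c⁻¹ ⊆ N := fun c hcC =>
        ⟨hc c ⟨c, hcC, 1, zpow_one c⟩, hc c⁻¹ ⟨c, hcC, -1, zpow_neg_one c⟩⟩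
      obtain ⟨O₁, h1, h2, -, h4⟩ := one_step hC hc' hO hNO
      refine ⟨O₁, h1, h2, ?_⟩
      rintro y ⟨c, hc, n, rfl⟩ x hx
      exact h4 c hc n x hx
    · have : N.Normal := hN
      obtain ⟨O₁, h1, h2, h3, h4⟩ := hTOP G N H hH hc O hO hNO
      exact ⟨O₁, h1, h2, fun p hp x hx => h3 (h4 p hp x hx)⟩

/-- STEP. -/
theorem step (hTOP : SpecTOP.{u}) {l : List (Set G)} {Γ : Subgroup G}
    (hl : ∀ X ∈ l, IsCompact X ∨ (∃ C : Set G, IsCompact C ∧ X = GP.Pw C) ∨
      ∃ H : Subgroup G, X = (H : Set G) ∧ VS H)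
    (hΓ : (Γ : Set G) ⊆ closure (l.prod : Set G))
    (hfi : ∀ O : Subgroup G, IsOpen (O : Set G) → Γ ≤ O → O.FiniteIndex)
    {N : Subgroup G} (hN : N.Normal)
    (hcon : ∀ X ∈ l, IsCompact X ∨ ∀ x ∈ X, con x ⊆ N) (O : Subgroup G) (hO : IsOpen (O : Set G))
    (hNO : N ≤ O) : IsOpen (O.normalCore : Set G) :=
  core4 (eq_prod l fun X hX => piece hTOP hN (hl X hX) (hcon X hX)) hΓ hfi O hO hNO

end FN8M

open FN8M

theorem specFN8 (hTOP : SpecTOP.{u}) : SpecFN8.{u} := by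
  intro G _ _ _ _ _ _ l Γ hl hΓ hfi
  have second : ∀ N : Subgroup G, N.Normal → IsClosed (N : Set G) →
      (∀ X ∈ l, IsCompact X ∨ ∀ x ∈ X, con x ⊆ N) → discreteResidual G ≤ N := by
    intro N hN hNc hcon x hx
    by_contra hxN
    have hW : {y : G | y⁻¹ * x ∈ (N : Set G)ᶜ} ∈ 𝓝 (1 : G) := by
      have h1 : Continuous fun y : G => y⁻¹ * x := by fun_prop
      apply h1.continuousAt.preimage_mem_nhds
      apply hNc.isOpen_compl.mem_nhds
      simpa using hxN
    obtain ⟨V, hVo, hVc, hVW⟩ := vanDantzig hW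
    have hO : IsOpen ((V ⊔ N : Subgroup G) : Set G) := Subgroup.isOpen_mono le_sup_left hVo
    have hcore := step hTOP hl hΓ hfi hN hcon (V ⊔ N) hO le_sup_right
    have hx' : x ∈ (V ⊔ N).normalCore := by
      have h2 : x ∈ sInf {H : Subgroup G | IsOpen (H : Set G) ∧ H.Normal} := hx
      exact (Subgroup.mem_sInf.1 h2) _ ⟨hcore, Subgroup.normalCore_normal _⟩
    have h3 : x ∈ ((V ⊔ N : Subgroup G) : Set G) := Subgroup.normalCore_le _ hx'
    rw [Subgroup.mul_normal V N] at h3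
    obtain ⟨v, hv, n, hn, hvn⟩ := Set.mem_mul.1 h3
    apply hVW hv
    rw [← hvn]
    simpa using hn
  have hTn : (titsCore G).Normal := titsCore_normal
  have heq : (discreteResidual G : Set G) = closure (titsCore G : Set G) := by
    apply Set.Subset.antisymm
    · have h1 := second (titsCore G).topologicalClosure
        (Subgroup.is_normal_topologicalClosure (titsCore G)) (Subgroup.isClosed_topologicalClosure _)
        (fun X _ => Or.inr fun g _ x hx => Subgroup.le_topologicalClosure _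
          (Subgroup.subset_closure (Set.mem_iUnion.2 ⟨g, hx⟩)))
      exact h1
    · exact closure_minimal titsCore_le_residual residual_closed
  refine ⟨heq, second, ?_⟩
  intro W hW
  obtain ⟨V, hVo, hVc, hVW⟩ := vanDantzig hW
  have hRn : (discreteResidual G).Normal := residual_normal
  have hO : IsOpen ((V ⊔ discreteResidual G : Subgroup G) : Set G) :=
    Subgroup.isOpen_mono le_sup_left hVo
  refine ⟨(V ⊔ discreteResidual G).normalCore, Subgroup.normalCore_normal _,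
    step hTOP hl hΓ hfi hRn
      (fun X _ => Or.inr fun g _ => con_sub_residual g) _ hO le_sup_right, ?_⟩
  intro x hx
  have h1 : x ∈ ((V ⊔ discreteResidual G : Subgroup G) : Set G) := Subgroup.normalCore_le _ hx
  rw [Subgroup.mul_normal V (discreteResidual G)] at h1
  exact Set.mul_subset_mul_right hVW h1

end Pool.Agent.Lib.MP7d449a.SO
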