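import Pool.Agent.Lib.MP_7d449a_al.SO.Spec

/-!
# MP_7d449a_al, module IDX: finite index from finite relative index
-/

set_option autoImplicit false

open scoped Pointwise

namespace Pool.Agent.Lib.MP7d449a.SO

universe u

theorem specIDX : SpecIDX.{u} := by
  intro G _ N P hN h1 h2
  have hle : P ≤ P ⊔ N := le_sup_left
  rw [← Subgroup.relIndex_mul_index hle]
  refine mul_ne_zero ?_ h2
  have hf : Finite (N ⧸ P.subgroupOf N) := Subgroup.index_ne_zero_iff_finite.1 h1
  unfold Subgroup.relIndex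
  rw [Subgroup.index_ne_zero_iff_finite]
  let f : (N ⧸ P.subgroupOf N) → ((P ⊔ N : Subgroup G) ⧸ P.subgroupOf (P ⊔ N)) :=
    Quotient.map' (fun n => ⟨n.1, (le_sup_right : N ≤ P ⊔ N) n.2⟩) (by
      intro a b hab
      rw [QuotientGroup.leftRel_apply] at hab ⊢
      exact hab)
  refine Finite.of_surjective f ?_
  intro q
  induction q using QuotientGroup.induction_on with
  | H z =>
    obtain ⟨g, hg⟩ := z
    have hg' : g ∈ ((N ⊔ P : Subgroup G) : Set G) := by
      rw [sup_comm]; exact hg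
    rw [Subgroup.normal_mul] at hg'
    obtain ⟨n, hn, p, hp, rfl⟩ := hg'
    refine ⟨QuotientGroup.mk ⟨n, hn⟩, ?_⟩
    change (QuotientGroup.mk (⟨n, _⟩ : (P ⊔ N : Subgroup G)) :
      (P ⊔ N : Subgroup G) ⧸ P.subgroupOf (P ⊔ N)) = QuotientGroup.mk ⟨n * p, hg⟩
    rw [QuotientGroup.eq, Subgroup.mem_subgroupOf]
    simpa using hp

end Pool.Agent.Lib.MP7d449a.SO
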