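import Pool.Agent.Lib.MP_7d449a_al.SO.Spec

set_option autoImplicit false

open scoped Pointwise

namespace Pool.Agent.Lib.MP7d449a.SO

universe u

namespace LATM

variable {Γ L : Type u} [Group Γ] [SemilatticeInf L] [MulAction Γ L]

lemma pow_fix (g : Γ) (b : L) (h : g • b = b) (k : ℕ) : g ^ k • b = b := by
  induction k with
  | zero => simp
  | succ k ih => rw [pow_succ, mul_smul, h, ih]

lemma one (hL : Lat Γ L) (g : Γ) (a b : L) (hba : b ≤ a)
    (h : ∃ n : ℕ, 0 < n ∧ g ^ n • a = a) : ∃ n : ℕ, 0 < n ∧ g ^ n • b = b := by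
  obtain ⟨n, hn, hna⟩ := h
  obtain ⟨b', hb', hgb'⟩ := hL.inv g b
  have hmem : ∀ k : ℕ, (g ^ (n * k)) • b ∈ Set.Icc b' a := by
    intro k
    constructor
    · have h1 := hL.mono (g ^ (n * k)) b' b hb'
      rwa [pow_fix g b' hgb' (n * k)] at h1
    · have h1 := hL.mono (g ^ (n * k)) b a hba
      rw [pow_mul] at h1 ⊢
      rwa [pow_fix (g ^ n) a hna k] at h1
  have hfin : (Set.range fun k : ℕ => (g ^ (n * k)) • b).Finite := by
    apply (hL.fin b' a).subset
    rintro _ ⟨k, rfl⟩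
    exact hmem k
  have hninj : ¬ Function.Injective (fun k : ℕ => (g ^ (n * k)) • b) := by
    intro hinj
    exact Set.infinite_range_of_injective hinj hfin
  have hex : ∃ k k' : ℕ, k < k' ∧ (g ^ (n * k)) • b = (g ^ (n * k')) • b := by
    rw [Function.Injective] at hninj
    push Not at hninj
    obtain ⟨k, k', he, hne⟩ := hninj
    rcases lt_or_gt_of_ne hne with hlt | hlt
    · exact ⟨k, k', hlt, he⟩
    · exact ⟨k', k, hlt, he.symm⟩
  obtain ⟨k, k', hlt, he⟩ := hex
  refine ⟨n * (k' - k), Nat.mul_pos hn (Nat.sub_pos_of_lt hlt), ?_⟩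
  have h2 : g ^ (n * k') = g ^ (n * k) * g ^ (n * (k' - k)) := by
    rw [← pow_add, ← Nat.mul_add, Nat.add_sub_cancel' hlt.le]
  rw [h2, mul_smul] at he
  exact (MulAction.injective (g ^ (n * k)) he).symm

lemma two (hL : Lat Γ L) (F : Set Γ) (hF : F.Finite) :
    ∀ a : L, ∃ b : L, b ≤ a ∧ ∀ g ∈ F, ∃ n : ℕ, 0 < n ∧ g ^ n • b = b := by
  induction F, hF using Set.Finite.induction_on with
  | empty => intro a; exact ⟨a, le_rfl, by simp⟩
  | @insert g F _ _ ih =>
    intro a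
    obtain ⟨b, hba, hb⟩ := ih a
    obtain ⟨b', hb'b, hgb'⟩ := hL.inv g b
    refine ⟨b', hb'b.trans hba, ?_⟩
    intro f hf
    rcases Set.mem_insert_iff.mp hf with rfl | hf
    · exact ⟨1, Nat.one_pos, by rw [pow_one]; exact hgb'⟩
    · exact one hL f b b' hb'b (hb f hf)

lemma three (hL : Lat Γ L) (H : Subgroup Γ) (b : L)
    (hfin : ((fun h : Γ => h • b) '' (H : Set Γ)).Finite) :
    ∃ b' : L, b' ≤ b ∧ ∀ h ∈ H, h • b' = b' := by
  classical
  have hne : hfin.toFinset.Nonempty := by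
    rw [Set.Finite.toFinset_nonempty]
    exact ⟨(1 : Γ) • b, 1, H.one_mem, rfl⟩
  have hle : ∀ h ∈ H, hfin.toFinset.inf' hne id ≤ h • b := by
    intro h hh
    have hm : h • b ∈ hfin.toFinset := by
      rw [Set.Finite.mem_toFinset]
      exact ⟨h, hh, rfl⟩
    exact Finset.inf'_le id hm
  have key : ∀ h ∈ H, h • hfin.toFinset.inf' hne id ≤ hfin.toFinset.inf' hne id := by
    intro h hh
    apply Finset.le_inf'
    intro c hc
    rw [Set.Finite.mem_toFinset] at hc
    obtain ⟨h', hh', rfl⟩ := hc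
    have h1 := hL.mono h _ _ (hle (h⁻¹ * h') (H.mul_mem (H.inv_mem hh) hh'))
    rw [← mul_smul, mul_inv_cancel_left] at h1
    exact h1
  refine ⟨hfin.toFinset.inf' hne id, ?_, ?_⟩
  · have h1 := hle 1 H.one_mem
    rwa [one_smul] at h1
  · intro h hh
    apply le_antisymm (key h hh)
    have h1 := hL.mono h _ _ (key h⁻¹ (H.inv_mem hh))
    rwa [← mul_smul, mul_inv_cancel, one_smul] at h1

end LATM

theorem specLAT : SpecLAT.{u} where
  one := fun _ _ _ _ _ hL g a b hba h => LATM.one hL g a b hba h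
  two := fun _ _ _ _ _ hL F hF a => LATM.two hL F hF a
  three := fun _ _ _ _ _ hL H b hfin => LATM.three hL H b hfin

end Pool.Agent.Lib.MP7d449a.SO
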