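import Pool.Agent.Lib.MP_7d449a_al.SO.Spec

/-! # LFI -/

set_option autoImplicit false

open scoped Pointwise commutatorElement

namespace Pool.Agent.Lib.MP7d449a.SO

universe u

namespace LFIM

theorem fin_image {α β γ : Type*} (S : Set α) (f : α → β) (g : α → γ)
    (h : ∀ a ∈ S, ∀ b ∈ S, f a = f b → g a = g b) (hf : (f '' S).Finite) : (g '' S).Finite := by
  classical
  have : Finite (f '' S) := hf.to_subtype
  have hc : ∀ b : f '' S, ∃ a ∈ S, f a = b := fun b => b.2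
  choose c hcS hcf using hc
  refine (Set.finite_range (fun b : f '' S => g (c b))).subset ?_
  rintro _ ⟨a, ha, rfl⟩
  refine ⟨⟨f a, a, ha, rfl⟩, ?_⟩
  exact h _ (hcS _) _ ha (hcf _)

theorem base {Γ : Type u} [Group Γ] (h : derivedSeries Γ 0 = ⊥) : LF Γ := by
  intro X _ _ _ x
  rw [derivedSeries_zero] at h
  have h1 : ∀ g : Γ, g = 1 := by
    intro g
    have : g ∈ (⊤ : Subgroup Γ) := Subgroup.mem_top g
    rw [h] at this
    exact Subgroup.mem_bot.1 this
  refine (Set.finite_singleton x).subset ?_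
  rintro _ ⟨g, rfl⟩
  simp [h1 g]

section quo

variable {Γ : Type u} [Group Γ] (B : Subgroup Γ) [B.Normal] {X : Type u} [MulAction Γ X] (x : X)

/-- the image of the stabiliser -/
def HQ : Subgroup (Γ ⧸ B) := (MulAction.stabilizer Γ x).map (QuotientGroup.mk' B)

/-- the class of an element -/
def cls (g : Γ) : (Γ ⧸ B) ⧸ HQ B x := QuotientGroup.mk (QuotientGroup.mk g : Γ ⧸ B)

theorem cls_eq {g h : Γ} (hgh : g • x = h • x) : cls B x g = cls B x h := by
  unfold cls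
  rw [QuotientGroup.eq]
  refine ⟨g⁻¹ * h, ?_, ?_⟩
  · show g⁻¹ * h ∈ MulAction.stabilizer Γ x
    rw [MulAction.mem_stabilizer_iff, mul_smul, ← hgh, inv_smul_smul]
  · simp

theorem cls_surj (y : (Γ ⧸ B) ⧸ HQ B x) : ∃ g, cls B x g = y := by
  obtain ⟨q, rfl⟩ := QuotientGroup.mk_surjective y
  obtain ⟨g, rfl⟩ := QuotientGroup.mk_surjective q
  exact ⟨g, rfl⟩

theorem smul_cls (s g : Γ) : (QuotientGroup.mk s : Γ ⧸ B) • cls B x g = cls B x (s * g) := rfl

theorem bd_quo {S : Set Γ} (hS : Bd X S) :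
    Bd ((Γ ⧸ B) ⧸ HQ B x) ((QuotientGroup.mk' B) '' S) := by
  intro y
  obtain ⟨g, rfl⟩ := cls_surj B x y
  rw [Set.image_image]
  refine fin_image S (fun s => s • (g • x)) _ ?_ (hS (g • x))
  intro a _ b _ hab
  show cls B x (a * g) = cls B x (b * g)
  apply cls_eq
  rw [mul_smul, mul_smul]
  exact hab

theorem cgen_quo (h : CGen Γ X) : CGen (Γ ⧸ B) ((Γ ⧸ B) ⧸ HQ B x) := by
  obtain ⟨S, h1, h2, h3⟩ := h
  refine ⟨(QuotientGroup.mk' B) '' S, ?_, bd_quo B x h2, ?_⟩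
  · rw [← MonoidHom.map_closure, h1]
    exact Subgroup.map_top_of_surjective _ (QuotientGroup.mk'_surjective B)
  · rw [← Set.image_inv]
    exact bd_quo B x h3

theorem per_quo (h : Per Γ X) : Per (Γ ⧸ B) ((Γ ⧸ B) ⧸ HQ B x) := by
  intro q y
  obtain ⟨g, rfl⟩ := QuotientGroup.mk_surjective q
  obtain ⟨v, rfl⟩ := cls_surj B x y
  obtain ⟨m, hm, hmv⟩ := h g (v • x)
  refine ⟨m, hm, ?_⟩
  have h1 : ((QuotientGroup.mk g : Γ ⧸ B)) ^ m = QuotientGroup.mk (g ^ m) := rfl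
  rw [h1, smul_cls]
  apply cls_eq
  rw [mul_smul, hmv]

theorem index_ne (hLF : LF (Γ ⧸ B)) (hC : CGen Γ X) (hP : Per Γ X) : (HQ B x).index ≠ 0 := by
  have h1 := hLF _ (cgen_quo B x hC) (per_quo B x hP) (cls B x 1)
  have h2 : (Set.univ : Set ((Γ ⧸ B) ⧸ HQ B x)).Finite := by
    refine h1.subset ?_
    intro y _
    obtain ⟨g, rfl⟩ := cls_surj B x y
    refine ⟨(QuotientGroup.mk g : Γ ⧸ B), ?_⟩
    show cls B x (g * 1) = _
    rw [mul_one]
  have : Finite ((Γ ⧸ B) ⧸ HQ B x) := Set.finite_univ_iff.1 h2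
  exact Subgroup.index_ne_zero_of_finite

end quo

theorem step (hSCH : SpecSCH.{u}) (hLSN : SpecLSN.{u}) (n : ℕ)
    (ih : ∀ (Γ : Type u) [Group Γ], derivedSeries Γ n = ⊥ → LF Γ)
    (Γ : Type u) [Group Γ] (h : derivedSeries Γ (n + 1) = ⊥) : LF Γ := by
  intro X _ hC hP x
  set B := derivedSeries Γ n with hB
  have hBn : B.Normal := derivedSeries_normal Γ n
  have hcomm : ∀ a ∈ B, ∀ b ∈ B, a * b = b * a := by
    intro a ha b hb
    have h1 : ⁅a, b⁆ ∈ derivedSeries Γ (n + 1) := by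
      rw [derivedSeries_succ]
      exact Subgroup.commutator_mem_commutator ha hb
    rw [h, Subgroup.mem_bot] at h1
    exact commutatorElement_eq_one_iff_mul_comm.1 h1
  have hQ : LF (Γ ⧸ B) := by
    apply ih
    rw [← map_derivedSeries_eq (QuotientGroup.mk'_surjective B), Subgroup.map_eq_bot_iff,
      QuotientGroup.ker_mk']
  have hidx := index_ne B x hQ hC hP
  set H₁ : Subgroup Γ := (HQ B x).comap (QuotientGroup.mk' B) with hH₁
  have hidx₁ : H₁.index ≠ 0 := by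
    rw [hH₁, Subgroup.index_comap_of_surjective _ (QuotientGroup.mk'_surjective B)]
    exact hidx
  have hBH : B ≤ H₁ := by
    intro b hb
    show QuotientGroup.mk' B b ∈ HQ B x
    have : QuotientGroup.mk' B b = 1 := by
      rw [← MonoidHom.mem_ker, QuotientGroup.ker_mk']
      exact hb
    rw [this]
    exact one_mem _
  have hC₁ : CGen H₁ X := hSCH Γ X H₁ hidx₁ hC
  have hP₁ : Per H₁ X := by
    intro g y
    obtain ⟨m, hm, hmy⟩ := hP g.1 y
    exact ⟨m, hm, hmy⟩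
  have hn₁ : (B.subgroupOf H₁).Normal := inferInstance
  have hQ₁ : LF (H₁ ⧸ B.subgroupOf H₁) := by
    apply ih
    rw [← map_derivedSeries_eq (QuotientGroup.mk'_surjective (B.subgroupOf H₁)),
      Subgroup.map_eq_bot_iff, QuotientGroup.ker_mk']
    have := map_derivedSeries_le_derivedSeries (f := H₁.subtype) n
    rw [Subgroup.map_le_iff_le_comap] at this
    exact this
  have horb : (MulAction.orbit H₁ x).Finite := by
    refine hLSN H₁ X (B.subgroupOf H₁) ?_ hQ₁ hC₁ hP₁ x ?_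
    · intro a ha b hb
      apply Subtype.ext
      exact hcomm a.1 (Subgroup.mem_subgroupOf.1 ha) b.1 (Subgroup.mem_subgroupOf.1 hb)
    · rintro ⟨g, hg⟩
      obtain ⟨s, hs, hsg⟩ := hg
      have hs' : s • x = x := hs
      have h1 : s⁻¹ * g ∈ B := QuotientGroup.eq.1 hsg
      have h2 : g * s⁻¹ ∈ B := by
        have := hBn.conj_mem _ h1 s
        simpa using this
      refine ⟨⟨g * s⁻¹, hBH h2⟩, Subgroup.mem_subgroupOf.2 h2, ?_⟩
      show g • x = (g * s⁻¹) • x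
      have h3 : s⁻¹ • x = x := by
        rw [inv_smul_eq_iff, hs']
      rw [mul_smul, h3]
  have hfi : H₁.FiniteIndex := ⟨hidx₁⟩
  have hfin : Finite (Γ ⧸ H₁) := Subgroup.finite_quotient_of_finiteIndex
  refine (Set.finite_iUnion fun q : Γ ⧸ H₁ => horb.image (fun y => q.out • y)).subset ?_
  rintro _ ⟨g, rfl⟩
  refine Set.mem_iUnion.2 ⟨(QuotientGroup.mk g : Γ ⧸ H₁), ?_⟩
  have h1 : ((QuotientGroup.mk g : Γ ⧸ H₁).out)⁻¹ * g ∈ H₁ := by
    apply QuotientGroup.eq.1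
    exact QuotientGroup.out_eq' _
  refine ⟨((QuotientGroup.mk g : Γ ⧸ H₁).out)⁻¹ • g • x, ?_, ?_⟩
  · refine ⟨⟨_, h1⟩, ?_⟩
    show (((QuotientGroup.mk g : Γ ⧸ H₁).out)⁻¹ * g) • x = _
    rw [mul_smul]
  · simp

end LFIM

theorem specLFI (hSCH : SpecSCH.{u}) (hLSN : SpecLSN.{u}) : SpecLFI.{u} := by
  intro Γ _ hΓ
  obtain ⟨n, hn⟩ := hΓ.solvable
  have h : ∀ n : ℕ, ∀ (Γ : Type u) [Group Γ], derivedSeries Γ n = ⊥ → LF Γ := by
    intro n
    induction n with
    | zero => intro Γ _ h; exact LFIM.base h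
    | succ n ih => intro Γ _ h; exact LFIM.step hSCH hLSN n ih Γ h
  exact h n Γ hn

end Pool.Agent.Lib.MP7d449a.SO
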