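import Pool.Agent.Lib.MP_7d449a_al.SO.Spec

/-! MP_7d449a_al, module LHF: finite orbits below a fixed point. -/

set_option autoImplicit false

open scoped Pointwise

namespace Pool.Agent.Lib.MP7d449a.SO

universe u

namespace LHFM

variable {Γ L : Type u} [Group Γ] [SemilatticeInf L] [MulAction Γ L]

/-- the action of a subgroup which fixes `a` on the elements below `a` -/
@[reducible] def act (hL : Lat Γ L) (H : Subgroup Γ) (a : L) (ha : ∀ h ∈ H, h • a = a) :
    MulAction H (Set.Iic a) where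
  smul h x := ⟨(h : Γ) • (x : L), by
    have h1 := hL.mono (h : Γ) _ _ x.2
    rwa [ha _ h.2] at h1⟩
  one_smul x := Subtype.ext (one_smul Γ (x : L))
  mul_smul g h x := Subtype.ext (mul_smul (g : Γ) (h : Γ) (x : L))

end LHFM

open LHFM in
theorem specLHF (hLFI : SpecLFI.{u}) (hLAT : SpecLAT.{u}) : SpecLHF.{u} := by
  intro Γ L _ _ _ _ hL S₀ a hS hS' hfix b hb
  have ha : ∀ h ∈ Subgroup.closure S₀, h • a = a := by
    intro h hh
    have h1 : Subgroup.closure S₀ ≤ MulAction.stabilizer Γ a :=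
      (Subgroup.closure_le _).2 fun s hs => MulAction.mem_stabilizer_iff.2 (hfix s hs)
    exact MulAction.mem_stabilizer_iff.1 (h1 hh)
  letI : MulAction (Subgroup.closure S₀) (Set.Iic a) := act hL (Subgroup.closure S₀) a ha
  have hval : ∀ (h : Subgroup.closure S₀) (x : Set.Iic a), ((h • x : Set.Iic a) : L) = (h : Γ) • (x : L) :=
    fun _ _ => rfl
  have hC : CGen (Subgroup.closure S₀) (Set.Iic a) := by
    refine ⟨(fun h : Subgroup.closure S₀ => (h : Γ)) ⁻¹' S₀, Subgroup.closure_closure_coe_preimage,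
      ?_, ?_⟩
    · intro x
      refine ((hS (x : L)).preimage (Subtype.val_injective (p := fun y => y ∈ Set.Iic a)).injOn).subset ?_
      rintro _ ⟨s, hs, rfl⟩
      exact ⟨(s : Γ), hs, rfl⟩
    · intro x
      refine ((hS' (x : L)).preimage (Subtype.val_injective (p := fun y => y ∈ Set.Iic a)).injOn).subset ?_
      rintro _ ⟨s, hs, rfl⟩
      exact ⟨(s : Γ), hs, rfl⟩
  have hP : Per (Subgroup.closure S₀) (Set.Iic a) := by
    intro h x
    obtain ⟨n, hn, hn'⟩ := hLAT.one Γ L hL (h : Γ) a (x : L) x.2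
      ⟨1, one_pos, by rw [pow_one, ha _ h.2]⟩
    exact ⟨n, hn, Subtype.ext hn'⟩
  have hfin := hLFI (Subgroup.closure S₀) (Set.Iic a) hC hP ⟨b, hb⟩
  refine (hfin.image (fun y : Set.Iic a => (y : L))).subset ?_
  rintro _ ⟨h, hh, rfl⟩
  exact ⟨(⟨h, hh⟩ : Subgroup.closure S₀) • (⟨b, hb⟩ : Set.Iic a), ⟨⟨h, hh⟩, rfl⟩, rfl⟩

end Pool.Agent.Lib.MP7d449a.SO
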