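import Pool.Agent.Lib.MP_7d449a_al.SO.Spec

/-!
# LSN
-/

set_option autoImplicit false

open scoped Pointwise

namespace Pool.Agent.Lib.MP7d449a.SO

universe u

theorem specLSN (hABF : SpecABF.{u}) (hCNJ : SpecCNJ.{u}) : SpecLSN.{u} := by
  classical
  intro Γ X _ _ B _ hB hLF hC hP x hx
  have hfin := hCNJ Γ X B hB hLF hC hP x hx
  obtain ⟨S, hS, hS1, hS2⟩ := hC
  -- the finite set `T`
  let σ : X → Γ := fun y => if h : ∃ b ∈ B, b • x = y then h.choose else 1
  have hσ1 : ∀ y, σ y ∈ B := by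
    intro y
    by_cases h : ∃ b ∈ B, b • x = y
    · simp only [σ, dif_pos h]
      exact h.choose_spec.1
    · simp only [σ, dif_neg h]
      exact B.one_mem
  have hσ2 : ∀ g : Γ, σ (g • x) • x = g • x := by
    intro g
    have h : ∃ b ∈ B, b • x = g • x := by
      obtain ⟨b, hb, hg⟩ := hx g
      exact ⟨b, hb, hg.symm⟩
    simp only [σ, dif_pos h]
    exact h.choose_spec.2
  let T : Set Γ := σ '' (((fun s : Γ => s • x) '' S) ∪ ((fun s : Γ => s • x) '' S⁻¹))
  have hT : T.Finite := ((hS1 x).union (hS2 x)).image σ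
  have hTB : T ⊆ (B : Set Γ) := by
    rintro _ ⟨y, -, rfl⟩
    exact hσ1 y
  let E : Subgroup Γ := Subgroup.normalClosure T
  have hEB : E ≤ B := Subgroup.normalClosure_le_normal hTB
  have hTE : ∀ t ∈ T, t ∈ E := fun t ht => Subgroup.subset_normalClosure ht
  have hEn : ∀ (g : Γ), ∀ e ∈ E, g * e * g⁻¹ ∈ E := fun g e he =>
    Subgroup.normalClosure_normal.conj_mem e he g
  -- the orbit
  have hstep : ∀ s : Γ, (∃ t ∈ T, t • x = s • x) → ∀ e ∈ E, ∃ e' ∈ E, s • e • x = e' • x := by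
    rintro s ⟨t, ht, hts⟩ e he
    refine ⟨s * e * s⁻¹ * t, E.mul_mem (hEn s e he) (hTE t ht), ?_⟩
    rw [mul_smul, hts, smul_smul, smul_smul, mul_assoc (s * e), inv_mul_cancel, mul_one]
  have hall : ∀ g : Γ, ∀ e ∈ E, ∃ e' ∈ E, g • e • x = e' • x := by
    intro g
    have hg : g ∈ Subgroup.closure S := by rw [hS]; exact Subgroup.mem_top g
    induction hg using Subgroup.closure_induction'' with
    | mem s hs =>
      exact hstep s ⟨σ (s • x), ⟨s • x, Or.inl ⟨s, hs, rfl⟩, rfl⟩, hσ2 s⟩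
    | inv_mem s hs =>
      exact hstep s⁻¹ ⟨σ (s⁻¹ • x), ⟨s⁻¹ • x, Or.inr ⟨s⁻¹, Set.inv_mem_inv.2 hs, rfl⟩, rfl⟩,
        hσ2 s⁻¹⟩
    | one =>
      intro e he
      exact ⟨e, he, one_smul _ _⟩
    | mul a b _ _ ha hb =>
      intro e he
      obtain ⟨e₁, he₁, h₁⟩ := hb e he
      obtain ⟨e₂, he₂, h₂⟩ := ha e₁ he₁
      exact ⟨e₂, he₂, by rw [mul_smul, h₁, h₂]⟩
  have hsub : MulAction.orbit Γ x ⊆ MulAction.orbit E x := by
    rintro _ ⟨g, rfl⟩
    obtain ⟨e, he, hge⟩ := hall g 1 E.one_mem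
    rw [one_smul] at hge
    exact ⟨⟨e, he⟩, hge.symm⟩
  refine Set.Finite.subset ?_ hsub
  -- the stabiliser has finite index
  have hcl : Subgroup.closure ((Subtype.val : E → Γ) ⁻¹' (Group.conjugatesOfSet T)) = ⊤ :=
    Subgroup.closure_closure_coe_preimage
  have hidx : (MulAction.stabilizer E x).index ≠ 0 := by
    refine hABF E (MulAction.stabilizer E x)
      ((Subtype.val : E → Γ) ⁻¹' (Group.conjugatesOfSet T)) hcl ?_ ?_ ?_
    · intro a b
      have hab : a * b = b * a := Subtype.ext (hB a.1 (hEB a.2) b.1 (hEB b.2))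
      rw [hab, mul_assoc b, mul_inv_cancel, mul_one, mul_inv_cancel]
      exact Subgroup.one_mem _
    · refine Set.Finite.of_finite_image (f := MulAction.ofQuotientStabilizer E x) ?_
        (MulAction.injective_ofQuotientStabilizer E x).injOn
      refine Set.Finite.subset (hT.biUnion fun t ht => hfin t (hTB ht)) ?_
      rintro _ ⟨_, ⟨a, ha, rfl⟩, rfl⟩
      rw [MulAction.ofQuotientStabilizer_mk]
      obtain ⟨t, ht, hta⟩ := Group.mem_conjugatesOfSet_iff.1 ha
      obtain ⟨g, hg⟩ := isConj_iff.1 hta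
      refine Set.mem_biUnion ht ⟨g, ?_⟩
      show (g * t * g⁻¹) • x = a • x
      rw [hg]
      rfl
    · intro a _
      obtain ⟨m, hm, hmx⟩ := hP a.1 x
      refine ⟨m, hm, ?_⟩
      rw [MulAction.mem_stabilizer_iff]
      exact hmx
  have hq : Finite (E ⧸ MulAction.stabilizer E x) := Subgroup.index_ne_zero_iff_finite.1 hidx
  have hf : Finite (MulAction.orbit E x) :=
    Finite.of_equiv _ (MulAction.orbitEquivQuotientStabilizer E x).symm
  exact Set.toFinite _

end Pool.Agent.Lib.MP7d449a.SO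

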