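import Pool.Agent.Lib.MP_7d449a_al.SO.Spec

/-!
# MP_7d449a_al, SO, module MAI: invariant elements for virtually soluble groups
-/

set_option autoImplicit false

open scoped Pointwise

namespace Pool.Agent.Lib.MP7d449a.SO

universe u

namespace MAIM

variable {Γ L : Type u} [Group Γ] [SemilatticeInf L] [MulAction Γ L]

/-- a point with a stabiliser of finite index has an invariant element below -/
theorem of_index (hLAT : SpecLAT.{u}) (hL : Lat Γ L) (a : L)
    (h : (MulAction.stabilizer Γ a).index ≠ 0) : ∃ b : L, b ≤ a ∧ ∀ g : Γ, g • b = b := by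
  have hfin : (MulAction.orbit Γ a).Finite := by
    have h1 : Finite (Γ ⧸ MulAction.stabilizer Γ a) :=
      Subgroup.index_ne_zero_iff_finite.1 h
    have h2 : Finite (MulAction.orbit Γ a) :=
      Finite.of_equiv _ (MulAction.orbitEquivQuotientStabilizer Γ a).symm
    exact Set.toFinite _
  have h3 : ((fun h : Γ => h • a) '' ((⊤ : Subgroup Γ) : Set Γ)).Finite := by
    refine hfin.subset ?_
    rintro _ ⟨g, -, rfl⟩
    exact MulAction.mem_orbit a g
  obtain ⟨b, hb, hb'⟩ := hLAT.three Γ L hL ⊤ a h3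
  exact ⟨b, hb, fun g => hb' g (Subgroup.mem_top g)⟩

theorem solv (hLAT : SpecLAT.{u}) (hMST : SpecMST.{u}) (hS : Group.IsSolvable Γ) (hL : Lat Γ L)
    (hC : CGen Γ L) (a : L) : ∃ b : L, b ≤ a ∧ ∀ g : Γ, g • b = b := by
  have key : ∀ j : ℕ, ∃ a' : L, a' ≤ a ∧
      (MulAction.stabilizer Γ a' ⊔ derivedSeries Γ j).index ≠ 0 := by
    intro j
    induction j with
    | zero =>
      refine ⟨a, le_refl a, ?_⟩
      have h : MulAction.stabilizer Γ a ⊔ derivedSeries Γ 0 = ⊤ := by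
        rw [derivedSeries_zero]
        exact sup_top_eq _
      rw [h, Subgroup.index_top]
      exact one_ne_zero
    | succ j ih =>
      obtain ⟨a', ha', h⟩ := ih
      obtain ⟨a'', ha'', h'⟩ := hMST Γ L hL hC (derivedSeries Γ j) a' h
      refine ⟨a'', ha''.trans ha', ?_⟩
      rw [derivedSeries_succ]
      exact h'
  obtain ⟨n, hn⟩ := hS.solvable
  obtain ⟨a', ha', h⟩ := key n
  rw [hn, sup_bot_eq] at h
  obtain ⟨b, hb, hb'⟩ := of_index hLAT hL a' h
  exact ⟨b, hb.trans ha', hb'⟩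

end MAIM

/-- **MAI** -/
theorem specMAI (hSCH : SpecSCH.{u}) (hLAT : SpecLAT.{u}) (hMST : SpecMST.{u}) : SpecMAI.{u} := by
  intro Γ L _ _ _ hL hC hM a
  obtain ⟨M, hM, hMs⟩ := hM
  have hLM : Lat M L := by
    refine ⟨fun g x y h => hL.mono g x y h, hL.fin, fun g x => ?_⟩
    exact hL.inv g x
  obtain ⟨a', ha', h⟩ := MAIM.solv hLAT hMST hMs hLM (hSCH Γ L M hM hC) a
  have hle : M ≤ MulAction.stabilizer Γ a' := by
    intro g hg
    rw [MulAction.mem_stabilizer_iff]
    exact h ⟨g, hg⟩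
  have hidx : (MulAction.stabilizer Γ a').index ≠ 0 := by
    intro h0
    have h1 := Subgroup.index_dvd_of_le hle
    rw [h0] at h1
    exact hM (Nat.eq_zero_of_zero_dvd h1)
  obtain ⟨b, hb, hb'⟩ := MAIM.of_index hLAT hL a' hidx
  exact ⟨b, hb.trans ha', hb'⟩

end Pool.Agent.Lib.MP7d449a.SO
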