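import Pool.Agent.Lib.MP_7d449a_al.SO.Spec

/-!
# MP_7d449a_al, module MST
-/

set_option autoImplicit false

open scoped Pointwise

namespace Pool.Agent.Lib.MP7d449a.SO

universe u

namespace MSTM

theorem fin_fac {X Y Z : Type u} (A : Set X) (φ : X → Y) (ψ : X → Z)
    (h : ∀ x ∈ A, ∀ y ∈ A, ψ x = ψ y → φ x = φ y) (hf : (ψ '' A).Finite) :
    (φ '' A).Finite := by
  classical
  rcases A.eq_empty_or_nonempty with hA | ⟨x₀, hx₀⟩
  · subst hA
    simp
  let r : Z → Y := fun z => if hz : ∃ x ∈ A, ψ x = z then φ hz.choose else φ x₀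
  apply (hf.image r).subset
  rintro _ ⟨x, hx, rfl⟩
  refine ⟨ψ x, ⟨x, hx, rfl⟩, ?_⟩
  have hz : ∃ x' ∈ A, ψ x' = ψ x := ⟨x, hx, rfl⟩
  show (if hz : ∃ x' ∈ A, ψ x' = ψ x then φ hz.choose else φ x₀) = φ x
  rw [dif_pos hz]
  exact h _ hz.choose_spec.1 _ hx hz.choose_spec.2

/-- a lower bound of `a` and of the `f⁻¹ • a` -/
theorem lower {Γ L : Type u} [Group Γ] [SemilatticeInf L] [MulAction Γ L] (F : Set Γ)
    (hF : F.Finite) (a : L) : ∃ b : L, b ≤ a ∧ ∀ f ∈ F, b ≤ f⁻¹ • a := by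
  induction F, hF using Set.Finite.induction_on with
  | empty => exact ⟨a, le_rfl, fun f hf => absurd hf (by simp)⟩
  | @insert g F _ _ ih =>
    obtain ⟨b, hb, hbF⟩ := ih
    refine ⟨b ⊓ g⁻¹ • a, inf_le_left.trans hb, fun f hf => ?_⟩
    rcases hf with rfl | hf
    · exact inf_le_right
    · exact inf_le_left.trans (hbF f hf)

/-- elements of the closure are products -/
theorem prod_form {Γ : Type u} [Group Γ] (S₀ F : Set Γ) (E H : Subgroup Γ)
    (hH : H = Subgroup.closure S₀)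
    (hE : E = Subgroup.closure {x | ∃ h ∈ H, ∃ f ∈ F, x = h * f * h⁻¹}) {g : Γ}
    (hg : g ∈ Subgroup.closure (S₀ ∪ F)) : ∃ e ∈ E, ∃ h ∈ H, g = e * h := by
  have hnorm : ∀ h ∈ H, ∀ e ∈ E, h * e * h⁻¹ ∈ E := by
    intro h hh e he
    rw [hE] at he
    induction he using Subgroup.closure_induction with
    | mem x hx =>
      obtain ⟨h', hh', f, hf, rfl⟩ := hx
      rw [hE]
      apply Subgroup.subset_closure
      exact ⟨h * h', H.mul_mem hh hh', f, hf, by group⟩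
    | one =>
      rw [mul_one, mul_inv_cancel]
      exact E.one_mem
    | mul x y _ _ hx hy =>
      have h1 : h * (x * y) * h⁻¹ = (h * x * h⁻¹) * (h * y * h⁻¹) := by group
      rw [h1]
      exact E.mul_mem hx hy
    | inv x _ hx =>
      have h1 : h * x⁻¹ * h⁻¹ = (h * x * h⁻¹)⁻¹ := by group
      rw [h1]
      exact E.inv_mem hx
  induction hg using Subgroup.closure_induction with
  | mem x hx =>
    rcases hx with hx | hx
    · exact ⟨1, E.one_mem, x, by rw [hH]; exact Subgroup.subset_closure hx, by rw [one_mul]⟩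
    · refine ⟨x, ?_, 1, H.one_mem, by rw [mul_one]⟩
      rw [hE]
      apply Subgroup.subset_closure
      exact ⟨1, H.one_mem, x, hx, by group⟩
  | one => exact ⟨1, E.one_mem, 1, H.one_mem, by rw [mul_one]⟩
  | mul x y _ _ hx hy =>
    obtain ⟨e, he, h, hh, rfl⟩ := hx
    obtain ⟨e', he', h', hh', rfl⟩ := hy
    exact ⟨e * (h * e' * h⁻¹), E.mul_mem he (hnorm h hh e' he'), h * h', H.mul_mem hh hh',
      by group⟩
  | inv x _ hx =>
    obtain ⟨e, he, h, hh, rfl⟩ := hx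
    refine ⟨h⁻¹ * e⁻¹ * (h⁻¹)⁻¹, hnorm h⁻¹ (H.inv_mem hh) e⁻¹ (E.inv_mem he), h⁻¹,
      H.inv_mem hh, by group⟩

end MSTM

open MSTM in
theorem specMST (hABF : SpecABF.{u}) (hIDX : SpecIDX.{u}) (hSCH : SpecSCH.{u})
    (hLAT : SpecLAT.{u}) (hLHF : SpecLHF.{u}) (hDEC : SpecDEC.{u}) : SpecMST.{u} := by
  intro Γ L _ _ _ _ hL hC N hN a hidx
  have hCM := hSCH Γ L (MulAction.stabilizer Γ a ⊔ N) hidx hC
  obtain ⟨S₀, F, hS, hS', hSa, hF, hFN, hcl⟩ := hDEC Γ L N a hCM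
  obtain ⟨H, hH⟩ : ∃ H : Subgroup Γ, H = Subgroup.closure S₀ := ⟨_, rfl⟩
  obtain ⟨a₁, ha₁, ha₁F⟩ := lower F hF a
  obtain ⟨a₂, ha₂, ha₂F⟩ := hLAT.two Γ L hL F hF a₁
  have hfin₂ := hLHF Γ L hL S₀ a hS hS' hSa a₂ (ha₂.trans ha₁)
  obtain ⟨a', ha', ha'H⟩ := hLAT.three Γ L hL (Subgroup.closure S₀) a₂ hfin₂
  rw [← hH] at ha'H
  have ha'a : a' ≤ a := ha'.trans (ha₂.trans ha₁)
  have hpowF : ∀ f ∈ F, ∃ n : ℕ, 0 < n ∧ f ^ n • a' = a' := fun f hf =>
    hLAT.one Γ L hL f a₂ a' ha' (ha₂F f hf)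
  have hfa : ∀ f ∈ F, f • a' ≤ a := by
    intro f hf
    have h1 := hL.mono f a' (f⁻¹ • a) (ha'.trans (ha₂.trans (ha₁F f hf)))
    rwa [smul_inv_smul] at h1
  refine ⟨a', ha'a, ?_⟩
  obtain ⟨P, hP⟩ : ∃ P : Subgroup Γ, P = MulAction.stabilizer Γ a' ⊔ ⁅N, N⁆ := ⟨_, rfl⟩
  rw [← hP]
  have hstP : ∀ g : Γ, g • a' = a' → g ∈ P := by
    intro g hg
    rw [hP]
    exact (le_sup_left : MulAction.stabilizer Γ a' ≤ _) (MulAction.mem_stabilizer_iff.mpr hg)
  obtain ⟨E, hE⟩ : ∃ E : Subgroup Γ,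
    E = Subgroup.closure {x | ∃ h ∈ H, ∃ f ∈ F, x = h * f * h⁻¹} := ⟨_, rfl⟩
  have hEN : E ≤ N := by
    rw [hE, Subgroup.closure_le]
    rintro _ ⟨h, _, f, hf, rfl⟩
    exact hN.conj_mem f (hFN hf) h
  obtain ⟨A, hA⟩ : ∃ A : Set N, A = {x : N | (∃ h ∈ H, ∃ f ∈ F, (x : Γ) = h * f * h⁻¹) ∨ (x : Γ) ∈ H} :=
    ⟨_, rfl⟩
  have hrel : (P.subgroupOf N).index ≠ 0 := by
    refine hABF N (P.subgroupOf N) A ?_ ?_ ?_ ?_
    · rw [Subgroup.eq_top_iff']
      intro x
      have hEA : E ≤ (Subgroup.closure A).map N.subtype := by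
        rw [hE, Subgroup.closure_le]
        rintro y hy
        obtain ⟨h, hh, f, hf, rfl⟩ := hy
        have hyN : h * f * h⁻¹ ∈ N := hN.conj_mem f (hFN hf) h
        refine ⟨⟨h * f * h⁻¹, hyN⟩, ?_, rfl⟩
        apply Subgroup.subset_closure
        rw [hA]
        exact Or.inl ⟨h, hh, f, hf, rfl⟩
      have hx : (x : Γ) ∈ Subgroup.closure (S₀ ∪ F) := by
        rw [hcl]
        exact (le_sup_right : N ≤ _) x.2
      obtain ⟨e, he, h, hh, hxe⟩ := prod_form S₀ F E H hH hE hx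
      have heN : e ∈ N := hEN he
      have hhN : h ∈ N := by
        have h1 : h = e⁻¹ * (x : Γ) := by rw [hxe]; group
        rw [h1]
        exact N.mul_mem (N.inv_mem heN) x.2
      have hx2 : x = ⟨e, heN⟩ * ⟨h, hhN⟩ := Subtype.ext hxe
      rw [hx2]
      apply Subgroup.mul_mem
      · obtain ⟨y, hy, hye⟩ := hEA he
        have : (⟨e, heN⟩ : N) = y := Subtype.ext hye.symm
        rw [this]
        exact hy
      · apply Subgroup.subset_closure
        rw [hA]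
        exact Or.inr hh
    · intro x y
      rw [Subgroup.mem_subgroupOf, hP]
      have h1 := Subgroup.commutator_mem_commutator x.2 y.2
      rw [commutatorElement_def] at h1
      exact (le_sup_right : ⁅N, N⁆ ≤ _) h1
    · apply fin_fac A (fun x : N => (x : N ⧸ P.subgroupOf N)) (fun x : N => (x : Γ) • a')
      · intro x _ y _ hxy
        rw [QuotientGroup.eq, Subgroup.mem_subgroupOf]
        apply hstP
        show ((x : Γ)⁻¹ * (y : Γ)) • a' = a'
        have h1 : (x : Γ) • a' = (y : Γ) • a' := hxy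
        rw [mul_smul, ← h1, inv_smul_smul]
      · have h1 : (⋃ f ∈ F, (fun h : Γ => h • (f • a')) '' (Subgroup.closure S₀ : Set Γ)).Finite :=
          hF.biUnion fun f hf => hLHF Γ L hL S₀ a hS hS' hSa (f • a') (hfa f hf)
        apply (h1.union (Set.finite_singleton a')).subset
        rintro _ ⟨x, hx, rfl⟩
        rw [hA] at hx
        rcases hx with ⟨h, hh, f, hf, hx⟩ | hx
        · left
          rw [Set.mem_iUnion₂]
          refine ⟨f, hf, h, by rw [← hH]; exact hh, ?_⟩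
          show h • (f • a') = (x : Γ) • a'
          rw [hx, mul_smul, mul_smul, ha'H h⁻¹ (H.inv_mem hh)]
        · right
          exact ha'H _ hx
    · intro x hx
      rw [hA] at hx
      rcases hx with ⟨h, hh, f, hf, hx⟩ | hx
      · obtain ⟨n, hn, hfn⟩ := hpowF f hf
        refine ⟨n, hn, ?_⟩
        rw [Subgroup.mem_subgroupOf]
        apply hstP
        rw [Subgroup.coe_pow, hx, conj_pow, mul_smul, mul_smul, ha'H h⁻¹ (H.inv_mem hh), hfn,
          ha'H h hh]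
      · refine ⟨1, one_pos, ?_⟩
        rw [Subgroup.mem_subgroupOf]
        apply hstP
        rw [pow_one]
        exact ha'H _ hx
  apply hIDX Γ N P hN hrel
  have hle : MulAction.stabilizer Γ a ⊔ N ≤ P ⊔ N := by
    rw [← hcl, Subgroup.closure_le]
    rintro g (hg | hg)
    · apply (le_sup_left : P ≤ _)
      apply hstP
      apply ha'H
      rw [hH]
      exact Subgroup.subset_closure hg
    · exact (le_sup_right : N ≤ _) (hFN hg)
  intro h0
  have h1 := Subgroup.index_dvd_of_le hle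
  rw [h0, zero_dvd_iff] at h1
  exact hidx h1

end Pool.Agent.Lib.MP7d449a.SO
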