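import Pool.Agent.Lib.MP_7d449a_al.SO.Spec2

/-!
# TCG : a compactly generated subgroup moves every open subgroup in a bounded way
-/

set_option autoImplicit false

open Filter Topology
open scoped Pointwise

namespace Pool.Agent.Lib.MP7d449a.SO

universe u

namespace TCGM

variable {G : Type u} [Group G] [TopologicalSpace G] [IsTopologicalGroup G] {N : Subgroup G}
  [N.Normal]

lemma conj_eq (O : OS N) (a c : G) (h : c⁻¹ * a ∈ O.1) : conjOS a O = conjOS c O := by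
  refine Subtype.ext (Subgroup.ext fun x => ?_)
  rw [mem_conjOS, mem_conjOS]
  have e1 : a⁻¹ * x * a = (c⁻¹ * a)⁻¹ * (c⁻¹ * x * c) * (c⁻¹ * a) := by group
  have e2 : c⁻¹ * x * c = (c⁻¹ * a) * (a⁻¹ * x * a) * (c⁻¹ * a)⁻¹ := by group
  constructor
  · intro hx
    rw [e2]
    exact O.1.mul_mem (O.1.mul_mem h hx) (O.1.inv_mem h)
  · intro hx
    rw [e1]
    exact O.1.mul_mem (O.1.mul_mem (O.1.inv_mem h) hx) h

lemma fin (H : Subgroup G) (K : Set G) (hK : IsCompact K) (A : Set H)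
    (hA : ∀ a ∈ A, (a : G) ∈ K) : Bd (OS N) A := by
  intro O
  obtain ⟨t, _, ht⟩ := hK.elim_nhds_subcover (fun c => (fun x => c⁻¹ * x) ⁻¹' (O.1 : Set G))
    (fun c _ => (O.2.1.preimage (by fun_prop)).mem_nhds (by
      show c⁻¹ * c ∈ O.1
      rw [inv_mul_cancel]
      exact O.1.one_mem))
  refine (t.finite_toSet.image (fun c => conjOS c O)).subset ?_
  rintro y ⟨a, ha, rfl⟩
  obtain ⟨c, hc, hac⟩ := Set.mem_iUnion₂.1 (ht (hA a ha))
  refine ⟨c, hc, ?_⟩
  exact (conj_eq O (a : G) c hac).symm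

end TCGM

theorem specTCG : SpecTCG.{u} := by
  intro G _ _ _ _ _ _ N _ H C hC hCH
  subst hCH
  refine ⟨((↑) : Subgroup.closure C → G) ⁻¹' C, Subgroup.closure_closure_coe_preimage, ?_, ?_⟩
  · exact TCGM.fin _ C hC _ (fun a ha => ha)
  · refine TCGM.fin _ C⁻¹ hC.inv _ (fun a ha => ?_)
    have h1 : ((a⁻¹ : Subgroup.closure C) : G) ∈ C := ha
    rw [Set.mem_inv]
    exact h1

end Pool.Agent.Lib.MP7d449a.SO
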