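import Pool.Agent.Lib.MP_7d449a_al.SO.Spec2

/-!
# MP_7d449a_al, soluble subgroups: module TLA

The open subgroups which contain a closed normal subgroup `N` and are compact modulo `N` form a meet semilattice
with finite intervals, on which the elements with contraction groups in `N` have small invariant elements.
-/

set_option autoImplicit false

open Filter Topology
open scoped Pointwise

namespace Pool.Agent.Lib.MP7d449a.SO

universe u

namespace TLAM

/-- The open subgroup `b`, compact modulo `N ≤ a`, is a finite union of cosets of the open subgroup `a`. -/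
theorem finCos {G : Type u} [Group G] [TopologicalSpace G] [IsTopologicalGroup G] {N : Subgroup G}
    (a b : Subgroup G) (ha : IsOpen (a : Set G)) (hNa : N ≤ a)
    (hb : ∃ Q : Set G, IsCompact Q ∧ (b : Set G) ⊆ Q * (N : Set G)) :
    ((fun x : G => (x : G ⧸ a)) '' (b : Set G)).Finite := by
  obtain ⟨Q, hQ, hbQ⟩ := hb
  obtain ⟨t, -, ht⟩ := hQ.elim_nhds_subcover (fun q => (fun y => q⁻¹ * y) ⁻¹' (a : Set G)) (fun q _ => by
    refine (ha.preimage (by fun_prop)).mem_nhds ?_
    show q⁻¹ * q ∈ a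
    rw [inv_mul_cancel]
    exact a.one_mem)
  refine (t.finite_toSet.image (fun x : G => (x : G ⧸ a))).subset ?_
  rintro _ ⟨x, hx, rfl⟩
  obtain ⟨q, hq, n, hn, rfl⟩ := hbQ hx
  obtain ⟨p, hp, hpq⟩ := Set.mem_iUnion₂.1 (ht hq)
  refine ⟨p, hp, ?_⟩
  show ((p : G) : G ⧸ a) = ((q * n : G) : G ⧸ a)
  rw [QuotientGroup.eq]
  have h1 : p⁻¹ * q ∈ a := hpq
  have h2 : p⁻¹ * (q * n) = (p⁻¹ * q) * n := by group
  rw [h2]
  exact a.mul_mem h1 (hNa hn)

end TLAM

open TLAM in
theorem specTLA : SpecTLA.{u} := by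
  intro G _ _ _ _ _ _ N _ H hcon
  refine ⟨?_, ?_, ?_⟩
  · intro g a b hab x hx
    have hab' : a.1 ≤ b.1 := hab
    have hx' : x ∈ (g • a).1 := hx
    rw [smul_OS] at hx'
    exact (smul_OS g b x).2 (hab' hx')
  · intro a b
    have hF := finCos a.1 b.1 a.2.1 a.2.2.1 b.2.2.2
    refine Set.Finite.of_injOn (f := fun O : OS N => (fun x : G => (x : G ⧸ a.1)) '' (O.1 : Set G))
      (t := {s | s ⊆ (fun x : G => (x : G ⧸ a.1)) '' (b.1 : Set G)}) ?_ ?_ hF.finite_subsets
    · intro O hO
      have h : O.1 ≤ b.1 := hO.2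
      exact Set.image_mono h
    · intro O hO O' hO' he
      have h1 : a.1 ≤ O.1 := hO.1
      have h1' : a.1 ≤ O'.1 := hO'.1
      have key : ∀ P : Subgroup G, a.1 ≤ P → ∀ x : G, x ∈ P ↔ (x : G ⧸ a.1) ∈ (fun x : G => (x : G ⧸ a.1)) '' (P : Set G) := by
        intro P hP x
        constructor
        · intro hx
          exact ⟨x, hx, rfl⟩
        · rintro ⟨y, hy, hyx⟩
          have hyx' : ((y : G) : G ⧸ a.1) = ((x : G) : G ⧸ a.1) := hyx
          rw [QuotientGroup.eq] at hyx'
          have : x = y * (y⁻¹ * x) := by group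
          rw [this]
          exact P.mul_mem hy (hP hyx')
      refine Subtype.ext (Subgroup.ext fun x => ?_)
      rw [key _ h1, key _ h1']
      have he' : (fun x : G => (x : G ⧸ a.1)) '' (O.1 : Set G) = (fun x : G => (x : G ⧸ a.1)) '' (O'.1 : Set G) := he
      rw [he']
  · intro g a
    obtain ⟨U, hUo, hUc, hUa⟩ := vanDantzig (a.2.1.mem_nhds a.1.one_mem)
    obtain ⟨V, hVU, hVo, hV⟩ := normalised (hcon g g.2)
      (by have := hcon _ (H.inv_mem g.2); exact this) hUc hUo
    refine ⟨⟨V ⊔ N, Subgroup.isOpen_mono le_sup_left hVo, le_sup_right, (U : Set G), hUc, ?_⟩, ?_, ?_⟩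
    · rw [Subgroup.mul_normal]
      exact Set.mul_subset_mul_right hVU
    · show V ⊔ N ≤ a.1
      exact sup_le (hVU.trans hUa) a.2.2.1
    · refine Subtype.ext (Subgroup.ext fun x => ?_)
      rw [smul_OS]
      show (g : G)⁻¹ * x * g ∈ V ⊔ N ↔ x ∈ V ⊔ N
      constructor
      · intro hx
        have h := hV 1 _ hx
        have e : (g : G) ^ (1 : ℤ) * ((g : G)⁻¹ * x * g) * ((g : G) ^ (1 : ℤ))⁻¹ = x := by
          rw [zpow_one]
          group
        rwa [e] at h
      · intro hx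
        have h := hV (-1) _ hx
        have e : (g : G) ^ (-1 : ℤ) * x * ((g : G) ^ (-1 : ℤ))⁻¹ = (g : G)⁻¹ * x * g := by
          rw [zpow_neg_one, inv_inv]
        rwa [e] at h

end Pool.Agent.Lib.MP7d449a.SO
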