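import Pool.Agent.Lib.MP_7d449a_al.SO.Spec2

/-!
# MP_7d449a_al, SO, module TOP: soluble subgroups normalise small open subgroups modulo `N`
-/

set_option autoImplicit false

open Filter Topology
open scoped Pointwise

namespace Pool.Agent.Lib.MP7d449a.SO

universe u

theorem specTOP (hMAI : SpecMAI.{u}) (hTLA : SpecTLA.{u}) (hTCG : SpecTCG.{u}) : SpecTOP.{u} := by
  intro G _ _ _ _ _ _ N _ H hH hcon O hO hNO
  obtain ⟨⟨C, hC, hCH⟩, hM⟩ := hH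
  obtain ⟨V, hVo, hVc, hVO⟩ := vanDantzig (hO.mem_nhds O.one_mem)
  have hVO : V ≤ O := hVO
  let A : OS N := ⟨V ⊔ N, Subgroup.isOpen_mono le_sup_left hVo, le_sup_right, (V : Set G), hVc, by
    rw [Subgroup.mul_normal V N]⟩
  obtain ⟨B, hBA, hB⟩ := hMAI H (OS N) (hTLA G N H hcon) (hTCG G N H C hC hCH) hM A
  have hBA : B.1 ≤ V ⊔ N := hBA
  refine ⟨B.1, B.2.1, B.2.2.1, hBA.trans (sup_le hVO hNO), fun h hh x hx => ?_⟩
  have h1 := hB ⟨h, hh⟩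
  have h2 := smul_OS (N := N) (⟨h, hh⟩ : H) B (h * x * h⁻¹)
  rw [h1] at h2
  refine h2.2 ?_
  show h⁻¹ * (h * x * h⁻¹) * h ∈ B.1
  have e : h⁻¹ * (h * x * h⁻¹) * h = x := by group
  rw [e]
  exact hx

end Pool.Agent.Lib.MP7d449a.SO
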