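import Pool.Agent.Lib.MP_7d449a_al.SO.ABF
import Pool.Agent.Lib.MP_7d449a_al.SO.CNJ
import Pool.Agent.Lib.MP_7d449a_al.SO.DEC
import Pool.Agent.Lib.MP_7d449a_al.SO.FN8
import Pool.Agent.Lib.MP_7d449a_al.SO.IDX
import Pool.Agent.Lib.MP_7d449a_al.SO.LAT
import Pool.Agent.Lib.MP_7d449a_al.SO.LFI
import Pool.Agent.Lib.MP_7d449a_al.SO.LHF
import Pool.Agent.Lib.MP_7d449a_al.SO.LSN
import Pool.Agent.Lib.MP_7d449a_al.SO.MAI
import Pool.Agent.Lib.MP_7d449a_al.SO.MST
import Pool.Agent.Lib.MP_7d449a_al.SO.SCH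
import Pool.Agent.Lib.MP_7d449a_al.SO.TCG
import Pool.Agent.Lib.MP_7d449a_al.SO.TLA
import Pool.Agent.Lib.MP_7d449a_al.SO.TOP

/-!
# MP_7d449a_al, soluble subgroups: the modules put together
-/

set_option autoImplicit false

open Filter Topology
open scoped Pointwise

namespace Pool.Agent.Lib.MP7d449a.SO

universe u

theorem fLSN : SpecLSN.{u} := specLSN specABF specCNJ
theorem fLFI : SpecLFI.{u} := specLFI specSCH fLSN
theorem fLHF : SpecLHF.{u} := specLHF fLFI specLAT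
theorem fMST : SpecMST.{u} := specMST specABF specIDX specSCH specLAT fLHF specDEC
theorem fMAI : SpecMAI.{u} := specMAI specSCH specLAT fMST
theorem fTOP : SpecTOP.{u} := specTOP fMAI specTLA specTCG
theorem fFN8 : SpecFN8.{u} := specFN8 fTOP

/-- Arbitrarily small open subgroups modulo `N` which are normalised by `H`. -/
theorem small {G : Type u} [Group G] [TopologicalSpace G] [IsTopologicalGroup G] [T2Space G]
    [LocallyCompactSpace G] [TotallyDisconnectedSpace G] {N H : Subgroup G} (hN : N.Normal)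
    (hH : VS H) (hcon : ∀ h ∈ H, con h ⊆ N) {W : Set G} (hW : W ∈ 𝓝 (1 : G)) :
    ∃ O : Subgroup G, IsOpen (O : Set G) ∧ N ≤ O ∧ (O : Set G) ⊆ W * (N : Set G) ∧
      ∀ h ∈ H, ∀ x ∈ O, h * x * h⁻¹ ∈ O := by
  obtain ⟨V, hVo, hVc, hVW⟩ := vanDantzig hW
  obtain ⟨O, h1, h2, h3, h4⟩ := fTOP G N H hH hcon (V ⊔ N)
    (Subgroup.isOpen_mono le_sup_left hVo) le_sup_right
  refine ⟨O, h1, h2, fun x hx => ?_, h4⟩
  have h5 : x ∈ ((V ⊔ N : Subgroup G) : Set G) := h3 hx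
  rw [Subgroup.mul_normal V N] at h5
  exact Set.mul_subset_mul_right hVW h5

end Pool.Agent.Lib.MP7d449a.SO
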