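import Pool.Agent.Lib.MP_7d449a_al.SO.Spec

/-!
# MP_7d449a_al, SO: module SCH (Schreier's lemma)
-/

set_option autoImplicit false

open scoped Pointwise

namespace Pool.Agent.Lib.MP7d449a.SO

universe u

namespace SCHM

theorem fin3 {Γ X : Type u} [Group Γ] [MulAction Γ X] (R A : Set Γ) (hR : R.Finite) (hA : Bd X A)
    (x : X) : {y : X | ∃ r ∈ R, ∃ a ∈ A, ∃ r' ∈ R, y = r • a • r'⁻¹ • x}.Finite := by
  have h1 : {y : X | ∃ r ∈ R, ∃ a ∈ A, ∃ r' ∈ R, y = r • a • r'⁻¹ • x} ⊆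
      ⋃ r ∈ R, ⋃ r' ∈ R, (fun y : X => r • y) '' ((fun a : Γ => a • (r'⁻¹ • x)) '' A) := by
    rintro y ⟨r, hr, a, ha, r', hr', rfl⟩
    simp only [Set.mem_iUnion]
    exact ⟨r, hr, r', hr', a • r'⁻¹ • x, ⟨a, ha, rfl⟩, rfl⟩
  exact (hR.biUnion (fun r _ => hR.biUnion (fun r' _ => (hA (r'⁻¹ • x)).image _))).subset h1

end SCHM

open SCHM in
theorem specSCH : SpecSCH.{u} := by
  intro Γ X _ _ H hH hG
  obtain ⟨S, hS, hB, hB'⟩ := hG
  obtain ⟨R, hR, hR1⟩ := H.exists_isComplement_right 1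
  haveI : H.FiniteIndex := ⟨hH⟩
  have hRf : R.Finite := hR.finite_right
  have key := Subgroup.closure_mul_image_eq_top hR hR1 hS
  refine ⟨_, key, ?_, ?_⟩
  · intro x
    refine (fin3 R S hRf hB x).subset ?_
    rintro _ ⟨_, ⟨g, hg, rfl⟩, rfl⟩
    obtain ⟨r, hr, s, hs, rfl⟩ := hg
    refine ⟨r, hr, s, hs, hR.toRightFun (r * s), (hR.toRightFun (r * s)).2, ?_⟩
    show ((r * s) * ((hR.toRightFun (r * s) : R) : Γ)⁻¹) • x = _
    rw [mul_smul, mul_smul]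
  · intro x
    refine (fin3 R S⁻¹ hRf hB' x).subset ?_
    rintro _ ⟨u, hu, rfl⟩
    obtain ⟨g, hg, hgu⟩ := hu
    obtain ⟨r, hr, s, hs, rfl⟩ := hg
    refine ⟨hR.toRightFun (r * s), (hR.toRightFun (r * s)).2, s⁻¹, Set.inv_mem_inv.2 hs, r, hr, ?_⟩
    have h1 : u = (⟨(r * s) * ((hR.toRightFun (r * s) : R) : Γ)⁻¹, hR.mul_inv_toRightFun_mem (r * s)⟩ : H)⁻¹ := by
      rw [← inv_inv u]
      exact congrArg _ hgu.symm
    rw [h1]
    show ((r * s) * ((hR.toRightFun (r * s) : R) : Γ)⁻¹)⁻¹ • x = _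
    rw [mul_inv_rev, mul_inv_rev, inv_inv, mul_smul, mul_smul]

end Pool.Agent.Lib.MP7d449a.SO
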