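import Mathlib

/-!
# MP_7d449a_al, soluble groups of automorphisms: specification (captain helper17)

Rules: one file `Lib/MP_7d449a_al/SO/<NAME>.lean` per module, it imports only this file (and Mathlib),
namespace `Pool.Agent.Lib.MP7d449a.SO`, auxiliary lemmas in `namespace <NAME>M`, the result is
`theorem spec<NAME> (h1 : Spec<DEP1>.{u}) ... : Spec<NAME>.{u}` (deps as hypotheses, in the order of the
list of deps in the docstring).  No axioms, no native_decide, no double quotes in the file.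

THEOREM.  Let a soluble group `Γ`, generated by a set `S` which moves every element of `L` to finitely
many elements only, act on a meet semilattice `L` with finite intervals by order automorphisms. Suppose
that every single element of `Γ` has invariant elements below every `a : L`.  Then `Γ` has invariant
elements below every `a : L`.
-/

set_option autoImplicit false

open scoped Pointwise

namespace Pool.Agent.Lib.MP7d449a.SO

universe u

/-- `A` moves every point to finitely many points. -/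
def Bd {Γ : Type u} [Group Γ] (X : Type u) [MulAction Γ X] (A : Set Γ) : Prop :=
  ∀ x : X, ((fun s : Γ => s • x) '' A).Finite

/-- `Γ` is generated by a set `S` such that `S` and `S⁻¹` move every point to finitely many points. -/
def CGen (Γ : Type u) [Group Γ] (X : Type u) [MulAction Γ X] : Prop :=
  ∃ S : Set Γ, Subgroup.closure S = ⊤ ∧ Bd X S ∧ Bd X S⁻¹

/-- Every element of `Γ` has finite orbits only. -/
def Per (Γ : Type u) [Group Γ] (X : Type u) [MulAction Γ X] : Prop :=
  ∀ (g : Γ) (x : X), ∃ m : ℕ, 0 < m ∧ g ^ m • x = x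

/-- The conclusion of the first theorem. -/
def LF (Γ : Type u) [Group Γ] : Prop :=
  ∀ (X : Type u) [MulAction Γ X], CGen Γ X → Per Γ X → ∀ x : X, (MulAction.orbit Γ x).Finite

/-- `Γ` acts by order automorphisms on the meet semilattice `L` with finite intervals and every
element has invariant elements below every `a`. -/
structure Lat (Γ L : Type u) [Group Γ] [SemilatticeInf L] [MulAction Γ L] : Prop where
  mono : ∀ (g : Γ) (a b : L), a ≤ b → g • a ≤ g • b
  fin : ∀ a b : L, (Set.Icc a b).Finite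
  inv : ∀ (g : Γ) (a : L), ∃ b : L, b ≤ a ∧ g • b = b

/-- ABF (deps: none; about 50 lines).
Proof.  `K` is normal (it contains the commutators), `G ⧸ K` is commutative, generated by a finite set
(the image of `A`) of elements of finite order, hence finite: `CommGroup.finite_of_fg_torsion`. -/
def SpecABF : Prop :=
  ∀ (G : Type u) [Group G] (K : Subgroup G) (A : Set G), Subgroup.closure A = ⊤ →
    (∀ a b : G, a * b * a⁻¹ * b⁻¹ ∈ K) → ((fun a : G => (a : G ⧸ K)) '' A).Finite →
    (∀ a ∈ A, ∃ m : ℕ, 0 < m ∧ a ^ m ∈ K) → K.index ≠ 0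

/-- IDX (deps: none; about 50 lines).
Proof.  `P ⊔ N = P N` as `N` is normal.  `G ⧸ P` is finite: `G` is a finite union of cosets
`c (P ⊔ N) = c N P`, and `N P / P` is finite as `P.relIndex N ≠ 0`.  (Or with the action of `G` on `G ⧸ P`
and orbit-stabiliser; `relIndex_mul_index` and `[P N : P] = [N : N ⊓ P]`.) -/
def SpecIDX : Prop :=
  ∀ (G : Type u) [Group G] (N P : Subgroup G), N.Normal → P.relIndex N ≠ 0 → (P ⊔ N).index ≠ 0 →
    P.index ≠ 0

/-- SCH (deps: none; about 100 lines), Schreier's lemma.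
Proof.  Let `S` be as in `CGen Γ X`, `R` a right transversal of `H` containing `1` (finite as `H` has
finite index).  Mathlib: `Subgroup.closure_mul_image_eq` (file `Mathlib/GroupTheory/Schreier.lean`): `H` is
generated by the elements `r s r'⁻¹`, `r ∈ R`, `s ∈ S`, `r' ∈ R` the representative of `r s`.
`Bd`: the elements `r s r'⁻¹` with `r, r'` from a finite set and `s ∈ S` move `x` to finitely many points,
and so do their inverses `r' s⁻¹ r⁻¹`.  The action of `H` on `X` is the restriction. -/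
def SpecSCH : Prop :=
  ∀ (Γ X : Type u) [Group Γ] [MulAction Γ X] (H : Subgroup Γ), H.index ≠ 0 → CGen Γ X → CGen H X

/-- CNJ (deps: none; about 130 lines).
Proof.  Let `D` be the set of `d ∈ B` with `d • x = x`.  As `B` is commutative and every point of the orbit
of `x` is `c • x` with `c ∈ B`, `D` is a subgroup which fixes every point of the orbit of `x` and it is
normal in `Γ`.  So for `b, b' ∈ B`: `b • x = b' • x` iff `b⁻¹ b' ∈ D`, and this is preserved by conjugation
with elements of `Γ`.  `N_b = {g | (g b g⁻¹) • x = b • x}` is a subgroup which contains `B`;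
`(g₁ b g₁⁻¹) • x = (g₂ b g₂⁻¹) • x` iff `g₂⁻¹ g₁ ∈ N_b`.  Let `K` be the image of `N_b` in `Γ ⧸ B`, and
apply `hQ` to `Y = (Γ ⧸ B) ⧸ K`:
`CGen`: the image of `S` generates; for `y` the class of `g` the class of `s g` is determined by
`(s (g b g⁻¹) s⁻¹) • x`, and these are finitely many points (`s⁻¹ • x` is in a finite set, apply
`g b g⁻¹`, then `s`); similarly for `S⁻¹`.
`Per`: let `g ∈ Γ`, `b' = u b u⁻¹ ∈ B`.  Write `g = c h` with `c ∈ B`, `h • x = x`.  Then
`g ^ m b' g ^ (-m) = h ^ m b' h ^ (-m)` as `B` is commutative.  There is `m > 0` with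
`(b' h) ^ m • x = x`; `(b' h) ^ m = N h ^ m`, `N = ∏_{i < m} h ^ i b' h ^ (-i)`, so `N ∈ D`,
`h N h⁻¹ N⁻¹ = b'⁻¹ (h ^ m b' h ^ (-m)) ∈ D`.
So the orbit of the base point, that is `Y`, is finite, `N_b` has finite index in `Γ`, and the points
`(g b g⁻¹) • x` are finitely many. -/
def SpecCNJ : Prop :=
  ∀ (Γ X : Type u) [Group Γ] [MulAction Γ X] (B : Subgroup Γ) [B.Normal],
    (∀ a ∈ B, ∀ b ∈ B, a * b = b * a) → LF (Γ ⧸ B) → CGen Γ X → Per Γ X →
    ∀ x : X, (∀ g : Γ, ∃ b ∈ B, g • x = b • x) →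
    ∀ b ∈ B, (Set.range fun g : Γ => (g * b * g⁻¹) • x).Finite

/-- LSN (deps: ABF, CNJ; about 110 lines).
Proof.  Let `S` be as in `CGen`.  There is a finite `T ⊆ B` such that every `s • x` and every `s⁻¹ • x`,
`s ∈ S`, is `t • x` for some `t ∈ T`.  Let `E = closure A ≤ B`, `A = {g t g⁻¹ | g ∈ Γ, t ∈ T}`.  `E` is
normal in `Γ`.  The set `E • x` is invariant under `s ∈ S`: `s e x = (s e s⁻¹) s x = (s e s⁻¹) t x`, and under
`s⁻¹`; so it is the orbit of `x` under `Γ`.  By `CNJ` the points `a • x`, `a ∈ A`, are finitely many; so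
`ABF` for `E`, the stabiliser `K` of `x` in `E` (`E` is commutative) and `A` (each `a ∈ A` has a power in
`K` by `Per`) gives that `K` has finite index in `E`, so `E • x` is finite. -/
def SpecLSN : Prop :=
  ∀ (Γ X : Type u) [Group Γ] [MulAction Γ X] (B : Subgroup Γ) [B.Normal],
    (∀ a ∈ B, ∀ b ∈ B, a * b = b * a) → LF (Γ ⧸ B) → CGen Γ X → Per Γ X →
    ∀ x : X, (∀ g : Γ, ∃ b ∈ B, g • x = b • x) → (MulAction.orbit Γ x).Finite

/-- LFI (deps: SCH, LSN; about 130 lines).
Proof.  Induction on `n` with `derivedSeries Γ n = ⊥` (for all `Γ`).  `n = 0`: `Γ` is trivial.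
`n + 1`: let `B = derivedSeries Γ n`, normal, commutative (`⁅B, B⁆ = ⊥`); `LF (Γ ⧸ B)` by induction
(`map_derivedSeries_eq`).  Let `x : X`, `H` the image of `stabilizer Γ x` in `Γ ⧸ B`.  Apply
`LF (Γ ⧸ B)` to `(Γ ⧸ B) ⧸ H`: the class of `g` is determined by `g • x`, so `CGen` and `Per` hold (for the
class of `u` use the point `u • x`).  So `H` has finite index, hence so has `H₁ = stabilizer Γ x ⊔ B` (the
comap of `H`).  By `SCH` `CGen H₁ X`; clearly `Per H₁ X`; `B₁ = B.subgroupOf H₁` is normal and commutative,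
`LF (H₁ ⧸ B₁)` by induction: `derivedSeries H₁ n ≤ B₁` (`map_derivedSeries_le_derivedSeries`) so
`derivedSeries (H₁ ⧸ B₁) n = ⊥`; every `g ∈ H₁` moves `x` into `B • x`.  By `LSN` the orbit of `x` under `H₁`
is finite, and `H₁` has finite index, so the orbit under `Γ` is finite. -/
def SpecLFI : Prop := ∀ (Γ : Type u) [Group Γ] [Group.IsSolvable Γ], LF Γ

/-- LAT (deps: none; about 110 lines).
(1) `g • b' = b'` for some `b' ≤ b` (`inv`), so the `g ^ (n k) • b`, `k : ℕ`, are in `Icc b' a`; two of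
them agree.  (2) Induction on the finite set `F`: given `b` for `F` and `g`, take `b' ≤ b` with
`g • b' = b'` (`inv`); use (1) for the elements of `F`.  (3) `b'` is the infimum of the finite nonempty
set `{h • b | h ∈ H}`: `h • b'` is a lower bound of it. -/
structure SpecLAT : Prop where
  one : ∀ (Γ L : Type u) [Group Γ] [SemilatticeInf L] [MulAction Γ L], Lat Γ L →
    ∀ (g : Γ) (a b : L), b ≤ a → (∃ n : ℕ, 0 < n ∧ g ^ n • a = a) → ∃ n : ℕ, 0 < n ∧ g ^ n • b = b
  two : ∀ (Γ L : Type u) [Group Γ] [SemilatticeInf L] [MulAction Γ L], Lat Γ L →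
    ∀ (F : Set Γ), F.Finite → ∀ a : L, ∃ b : L, b ≤ a ∧ ∀ g ∈ F, ∃ n : ℕ, 0 < n ∧ g ^ n • b = b
  three : ∀ (Γ L : Type u) [Group Γ] [SemilatticeInf L] [MulAction Γ L], Lat Γ L →
    ∀ (H : Subgroup Γ) (b : L), ((fun h : Γ => h • b) '' (H : Set Γ)).Finite →
      ∃ b' : L, b' ≤ b ∧ ∀ h ∈ H, h • b' = b'

/-- LHF (deps: LFI, LAT; about 70 lines).
Proof.  Let `H = closure S₀`.  It fixes `a`, so it acts on `Set.Iic a` (define this `MulAction`).
`LFI` for `↥H`, which is solvable, and `X = Set.Iic a`: `CGen` with the set `S₀`; `Per` by `LAT.one`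
(`h ^ 1 • a = a`). -/
def SpecLHF : Prop :=
  ∀ (Γ L : Type u) [Group Γ] [Group.IsSolvable Γ] [SemilatticeInf L] [MulAction Γ L], Lat Γ L →
    ∀ (S₀ : Set Γ) (a : L), Bd L S₀ → Bd L S₀⁻¹ → (∀ s ∈ S₀, s • a = a) →
    ∀ b : L, b ≤ a → ((fun h : Γ => h • b) '' (Subgroup.closure S₀ : Set Γ)).Finite

/-- DEC (deps: none; about 90 lines).
Proof.  Let `M = stabilizer Γ a ⊔ N` and `S ⊆ M` the (images in `Γ` of the elements of the) generating set
of `CGen M X`.  There is a finite `R ⊆ S` such that every `s • a`, `s ∈ S`, is `r • a` for some `r ∈ R`.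
Write `r = d_r h_r` with `d_r ∈ N`, `h_r • a = a` (`Subgroup.mem_sup`, `N` normal).  Take
`S₀ = {h_r} ∪ {r⁻¹ s | r ∈ R, s ∈ S, s • a = r • a}` and `F = {d_r}`. -/
def SpecDEC : Prop :=
  ∀ (Γ X : Type u) [Group Γ] [MulAction Γ X] (N : Subgroup Γ) [N.Normal] (a : X),
    CGen (MulAction.stabilizer Γ a ⊔ N : Subgroup Γ) X →
    ∃ S₀ F : Set Γ, Bd X S₀ ∧ Bd X S₀⁻¹ ∧ (∀ s ∈ S₀, s • a = a) ∧ F.Finite ∧ F ⊆ (N : Set Γ) ∧
      Subgroup.closure (S₀ ∪ F) = MulAction.stabilizer Γ a ⊔ N

/-- MST (deps: ABF, IDX, SCH, LAT, LHF, DEC; about 150 lines).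
Proof.  `SCH` and `DEC` give `S₀, F`; `H = closure S₀`, it fixes `a`.  Let `a₁` be the infimum of `a` and
of the `f⁻¹ • a`, `f ∈ F`; `a₂ ≤ a₁` such that every `f ∈ F` has a power which fixes `a₂` (`LAT.two`);
`a' ≤ a₂` fixed by `H` (`LHF` for `b = a₂` and `LAT.three`).  So `f • a' ≤ a` for `f ∈ F`, and some power of
`f` fixes `a'` (`LAT.one`).  Let `P = stabilizer Γ a' ⊔ ⁅N, N⁆`.
Apply `ABF` to `G = ↥N`, `K = P.subgroupOf N`, `A = {h f h⁻¹ | h ∈ H, f ∈ F} ∪ (H ⊓ N)`:
`A` generates `N`: `closure (S₀ ∪ F) = E H` with `E` the subgroup generated by the `h f h⁻¹` (`H` normalises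
it), `E ≤ N`; if `n = e h ∈ N` then `h ∈ H ⊓ N`.
The image of `A` is finite: `n₁, n₂ ∈ N` with `n₁ • a' = n₂ • a'` have the same class; `(h f h⁻¹) • a' = h • (f • a')`
and `f • a' ≤ a`, so these are finitely many by `LHF`; `H ⊓ N` fixes `a'`.
Powers: `(h f h⁻¹) ^ m • a' = h f ^ m h⁻¹ • a' = a'` if `f ^ m • a' = a'`.
So `P.relIndex N ≠ 0`; and `P ⊔ N ≥ closure (S₀ ∪ F) = stabilizer Γ a ⊔ N` has finite index; `IDX`. -/
def SpecMST : Prop :=
  ∀ (Γ L : Type u) [Group Γ] [Group.IsSolvable Γ] [SemilatticeInf L] [MulAction Γ L], Lat Γ L →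
    CGen Γ L → ∀ (N : Subgroup Γ) [N.Normal] (a : L), (MulAction.stabilizer Γ a ⊔ N).index ≠ 0 →
    ∃ a' : L, a' ≤ a ∧ (MulAction.stabilizer Γ a' ⊔ ⁅N, N⁆).index ≠ 0

/-- MAI (deps: SCH, LAT, MST; about 80 lines), the main theorem, for virtually soluble groups.
Proof.  First let `Γ` be solvable.  Induction on `j` with `MST`: there is `a' ≤ a` with
`(stabilizer Γ a' ⊔ derivedSeries Γ j).index ≠ 0` (`j = 0`: `⊤`).  For `derivedSeries Γ n = ⊥` the stabiliser of
`a'` has finite index, so the orbit of `a'` is finite; `LAT.three` for `⊤`.  In general let `M` be solvable of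
finite index, `CGen M L` by `SCH`, `Lat M L`; there is `a' ≤ a` fixed by `M`, its orbit under `Γ` is finite,
`LAT.three`. -/
def SpecMAI : Prop :=
  ∀ (Γ L : Type u) [Group Γ] [SemilatticeInf L] [MulAction Γ L], Lat Γ L → CGen Γ L →
    (∃ M : Subgroup Γ, M.index ≠ 0 ∧ Group.IsSolvable M) → ∀ a : L, ∃ b : L, b ≤ a ∧ ∀ g : Γ, g • b = b

end Pool.Agent.Lib.MP7d449a.SO
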