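import Pool.Agent.Lib.MP_7d449a_al.SO.Spec
import Pool.Agent.Lib.MP_7d449a_al.GP.BM2

/-!
# MP_7d449a_al, soluble subgroups: specification, part 2 (topological part, captain helper17)

Same rules, but these modules import `Pool.Agent.Lib.MP_7d449a_al.SO.Spec2`.
-/

set_option autoImplicit false

open Filter Topology
open scoped Pointwise

namespace Pool.Agent.Lib.MP7d449a.SO

universe u

/-- The open subgroups `O ≥ N` which are compact modulo `N`. -/
def OS {G : Type u} [Group G] [TopologicalSpace G] (N : Subgroup G) : Type u :=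
  {O : Subgroup G // IsOpen (O : Set G) ∧ N ≤ O ∧
    ∃ Q : Set G, IsCompact Q ∧ (O : Set G) ⊆ Q * (N : Set G)}

instance instSemilatticeInfOS {G : Type u} [Group G] [TopologicalSpace G] (N : Subgroup G) :
    SemilatticeInf (OS N) :=
  Subtype.semilatticeInf (fun {_ _} hx hy => ⟨hx.1.inter hy.1, le_inf hx.2.1 hy.2.1,
    hx.2.2.imp fun _ hQ => ⟨hQ.1, fun _ hz => hQ.2 hz.1⟩⟩)

/-- The conjugate of `O` by `g`. -/
def conjOS {G : Type u} [Group G] [TopologicalSpace G] [IsTopologicalGroup G] {N : Subgroup G}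
    [hN : N.Normal] (g : G) (O : OS N) : OS N :=
  ⟨O.1.map (MulAut.conj g).toMonoidHom, by
    obtain ⟨O, h1, h2, Q, hQ, hOQ⟩ := O
    refine ⟨?_, ?_, (fun x => g * x * g⁻¹) '' Q, ?_, ?_⟩
    · have e : ((O.map (MulAut.conj g).toMonoidHom : Subgroup G) : Set G) =
          (fun x => g⁻¹ * x * g) ⁻¹' (O : Set G) := by
        ext y
        constructor
        · rintro ⟨x, hx, rfl⟩
          show g⁻¹ * (g * x * g⁻¹) * g ∈ O
          have : g⁻¹ * (g * x * g⁻¹) * g = x := by group
          rw [this]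
          exact hx
        · intro hy
          refine ⟨g⁻¹ * y * g, hy, ?_⟩
          show g * (g⁻¹ * y * g) * g⁻¹ = y
          group
      show IsOpen ((O.map (MulAut.conj g).toMonoidHom : Subgroup G) : Set G)
      rw [e]
      exact h1.preimage (by fun_prop)
    · intro n hn
      refine ⟨g⁻¹ * n * g, h2 ?_, ?_⟩
      · have := hN.conj_mem n hn g⁻¹
        simpa using this
      · show g * (g⁻¹ * n * g) * g⁻¹ = n
        group
    · exact hQ.image (by fun_prop)
    · rintro y ⟨x, hx, rfl⟩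
      obtain ⟨q, hq, n, hn, rfl⟩ := hOQ hx
      refine ⟨g * q * g⁻¹, ⟨q, hq, rfl⟩, g * n * g⁻¹, hN.conj_mem n hn g, ?_⟩
      show g * q * g⁻¹ * (g * n * g⁻¹) = g * (q * n) * g⁻¹
      group⟩

theorem mem_conjOS {G : Type u} [Group G] [TopologicalSpace G] [IsTopologicalGroup G]
    {N : Subgroup G} [N.Normal] (g x : G) (O : OS N) : x ∈ (conjOS g O).1 ↔ g⁻¹ * x * g ∈ O.1 := by
  constructor
  · rintro ⟨y, hy, rfl⟩
    show g⁻¹ * (g * y * g⁻¹) * g ∈ O.1
    have : g⁻¹ * (g * y * g⁻¹) * g = y := by group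
    rw [this]
    exact hy
  · intro hx
    refine ⟨g⁻¹ * x * g, hx, ?_⟩
    show g * (g⁻¹ * x * g) * g⁻¹ = x
    group

/-- The subgroup `H` of `G` acts on `OS N` by conjugation. -/
instance instMulActionOS {G : Type u} [Group G] [TopologicalSpace G] [IsTopologicalGroup G]
    (N : Subgroup G) [N.Normal] (H : Subgroup G) : MulAction H (OS N) where
  smul h O := conjOS (h : G) O
  one_smul O := by
    refine Subtype.ext (Subgroup.ext fun x => ?_)
    show x ∈ (conjOS ((1 : H) : G) O).1 ↔ x ∈ O.1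
    rw [mem_conjOS]
    simp
  mul_smul g h O := by
    refine Subtype.ext (Subgroup.ext fun x => ?_)
    show x ∈ (conjOS ((g * h : H) : G) O).1 ↔ x ∈ (conjOS (g : G) (conjOS (h : G) O)).1
    rw [mem_conjOS, mem_conjOS, mem_conjOS]
    have e : ((g * h : H) : G)⁻¹ * x * ((g * h : H) : G) = (h : G)⁻¹ * ((g : G)⁻¹ * x * g) * h := by
      rw [Subgroup.coe_mul]
      group
    rw [e]

theorem smul_OS {G : Type u} [Group G] [TopologicalSpace G] [IsTopologicalGroup G]
    {N : Subgroup G} [N.Normal] {H : Subgroup G} (h : H) (O : OS N) (x : G) :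
    x ∈ (h • O).1 ↔ (h : G)⁻¹ * x * h ∈ O.1 := mem_conjOS _ _ _

/-- TLA (deps: none; about 100 lines).
Proof.  `mono`: `smul_OS`.  `fin`: let `A ≤ B` in `OS N` (else the interval is empty), `B ⊆ Q N`, `Q` compact;
finitely many of the open sets `q A` cover `Q`, and `N ≤ A`, so `B` is a union of finitely many left cosets
of `A`; a subgroup `O` between `A` and `B` is the union of the cosets of `A` which it contains, so there
are finitely many.  `inv`: let `h ∈ H`, `O : OS N`.  `vanDantzig` gives a compact open `U ≤ O.1`, and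
`normalised` (file `Contr`, for `con h, con h⁻¹ ⊆ N`) an open `V ≤ U` such that `V ⊔ N` is normalised by all
powers of `h`; `V ⊔ N = V N` is in `OS N` with `Q = U`, it is `≤ O` and fixed by `h`. -/
def SpecTLA : Prop :=
  ∀ (G : Type u) [Group G] [TopologicalSpace G] [IsTopologicalGroup G] [LocallyCompactSpace G]
    [TotallyDisconnectedSpace G] [T2Space G] (N : Subgroup G) [N.Normal] (H : Subgroup G),
    (∀ h ∈ H, con h ⊆ N) → Lat H (OS N)

/-- TCG (deps: none; about 80 lines).
Proof.  `S` = the set of the elements of `H` which lie in `C`; it generates `↥H` (`H = closure C`).  For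
`O : OS N` the conjugate `h • O` depends only on the coset `h O.1`, and the compact set `C` (or `C⁻¹`) is
covered by finitely many of the open cosets `c O.1`. -/
def SpecTCG : Prop :=
  ∀ (G : Type u) [Group G] [TopologicalSpace G] [IsTopologicalGroup G] [LocallyCompactSpace G]
    [TotallyDisconnectedSpace G] [T2Space G] (N : Subgroup G) [N.Normal] (H : Subgroup G)
    (C : Set G), IsCompact C → Subgroup.closure C = H → CGen H (OS N)

/-- `H` is generated by a compact set and virtually soluble. -/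
def VS {G : Type u} [Group G] [TopologicalSpace G] (H : Subgroup G) : Prop :=
  (∃ C : Set G, IsCompact C ∧ Subgroup.closure C = H) ∧
    ∃ M : Subgroup H, M.index ≠ 0 ∧ Group.IsSolvable M

/-- TOP (deps: MAI, TLA, TCG; captain). -/
def SpecTOP : Prop :=
  ∀ (G : Type u) [Group G] [TopologicalSpace G] [IsTopologicalGroup G] [LocallyCompactSpace G]
    [TotallyDisconnectedSpace G] [T2Space G] (N : Subgroup G) [N.Normal] (H : Subgroup G),
    VS H → (∀ h ∈ H, con h ⊆ N) → ∀ O : Subgroup G, IsOpen (O : Set G) → N ≤ O →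
    ∃ O' : Subgroup G, IsOpen (O' : Set G) ∧ N ≤ O' ∧ O' ≤ O ∧ ∀ h ∈ H, ∀ x ∈ O', h * x * h⁻¹ ∈ O'

/-- FN8 (deps: TOP; captain): the theorem for products of pieces. -/
def SpecFN8 : Prop :=
  ∀ (G : Type u) [Group G] [TopologicalSpace G] [IsTopologicalGroup G] [LocallyCompactSpace G]
    [TotallyDisconnectedSpace G] [T2Space G] (l : List (Set G)) (Γ : Subgroup G),
    (∀ X ∈ l, IsCompact X ∨ (∃ C : Set G, IsCompact C ∧ X = GP.Pw C) ∨
      ∃ H : Subgroup G, X = (H : Set G) ∧ VS H) →
    (Γ : Set G) ⊆ closure (l.prod : Set G) →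
    (∀ O : Subgroup G, IsOpen (O : Set G) → Γ ≤ O → O.FiniteIndex) →
    (discreteResidual G : Set G) = closure (titsCore G : Set G) ∧
    (∀ N : Subgroup G, N.Normal → IsClosed (N : Set G) →
      (∀ X ∈ l, IsCompact X ∨ ∀ x ∈ X, con x ⊆ N) → discreteResidual G ≤ N) ∧
    ∀ W ∈ 𝓝 (1 : G), ∃ H : Subgroup G, H.Normal ∧ IsOpen (H : Set G) ∧
      (H : Set G) ⊆ W * (discreteResidual G : Set G)

end Pool.Agent.Lib.MP7d449a.SO
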